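import Mathlib

set_option autoImplicit false

/-!
Edge-disjoint paths from a partial orientation.
-/

namespace Pool.Agent.N418.PPD

open Finset

variable {V : Type*} [DecidableEq V]

/-- number of arcs leaving `v` -/
def outd (A : Finset (V × V)) (v : V) : ℕ := (A.filter (fun p => p.1 = v)).card

/-- number of arcs entering `v` -/
def ind (A : Finset (V × V)) (v : V) : ℕ := (A.filter (fun p => p.2 = v)).card

theorem outd_erase (A : Finset (V × V)) (u v : V) (h : (v, u) ∈ A) (x : V) :
    outd (A.erase (v, u)) x + (if x = v then 1 else 0) = outd A x := by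
  unfold outd
  rw [Finset.filter_erase]
  split_ifs with hx
  · subst hx
    rw [Finset.card_erase_of_mem (by simp [h])]
    have : 0 < (A.filter (fun p => p.1 = x)).card :=
      Finset.card_pos.2 ⟨(x, u), by simp [h]⟩
    omega
  · rw [Finset.erase_eq_of_notMem]
    · rfl
    · simp [Ne.symm hx]

theorem ind_erase (A : Finset (V × V)) (u v : V) (h : (v, u) ∈ A) (x : V) :
    ind (A.erase (v, u)) x + (if x = u then 1 else 0) = ind A x := by
  unfold ind
  rw [Finset.filter_erase]
  split_ifs with hx
  · subst hx
    rw [Finset.card_erase_of_mem (by simp [h])]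
    have : 0 < (A.filter (fun p => p.2 = x)).card :=
      Finset.card_pos.2 ⟨(v, x), by simp [h]⟩
    omega
  · rw [Finset.erase_eq_of_notMem]
    · rfl
    · simp [Ne.symm hx]

/-- number of units at `x` -/
def cnt {ι : Type*} [Fintype ι] (pos : ι → V) (x : V) : ℕ := ∑ i, if pos i = x then 1 else 0

theorem cnt_update {ι : Type*} [Fintype ι] [DecidableEq ι] (pos : ι → V) (i : ι) (u v : V)
    (hv : pos i = v) (x : V) :
    cnt (Function.update pos i u) x + (if x = v then 1 else 0) =
      cnt pos x + (if x = u then 1 else 0) := by
  unfold cnt
  rw [← Finset.add_sum_erase _ _ (Finset.mem_univ i),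
    ← Finset.add_sum_erase (s := univ) (fun j => if pos j = x then 1 else 0) (Finset.mem_univ i)]
  have h1 : ∑ j ∈ univ.erase i, (if Function.update pos i u j = x then 1 else 0) =
      ∑ j ∈ univ.erase i, (if pos j = x then 1 else 0) := by
    apply Finset.sum_congr rfl
    intro j hj
    rw [Function.update_of_ne (Finset.ne_of_mem_erase hj)]
  rw [h1, Function.update_self, hv]
  have e1 : (if u = x then 1 else 0) = (if x = u then 1 else 0) := by
    simp [eq_comm]
  have e2 : (if v = x then 1 else 0) = (if x = v then 1 else 0) := by
    simp [eq_comm]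
  rw [e1, e2]
  omega

/-- Edge-disjoint routing of units to `a` or `b` along arcs. -/
theorem flow {ι : Type*} [Fintype ι] [DecidableEq ι] (a b : V) :
    ∀ (n : ℕ) (A : Finset (V × V)), A.card = n → (∀ u v, (u, v) ∈ A → (v, u) ∉ A) →
      ∀ pos : ι → V, (∀ v, v ≠ a → v ≠ b → ind A v + cnt pos v ≤ outd A v) →
      ∃ H : ι → SimpleGraph V,
        (∀ i u v, (H i).Adj u v → (u, v) ∈ A ∨ (v, u) ∈ A) ∧
        (∀ i j u v, (H i).Adj u v → (H j).Adj u v → i = j) ∧
        ∀ i, (H i).Reachable (pos i) a ∨ (H i).Reachable (pos i) b := by
  intro n
  induction n with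
  | zero =>
    intro A hA _ pos hpos
    have hA0 : A = ∅ := Finset.card_eq_zero.1 hA
    refine ⟨fun _ => ⊥, fun i u v h => absurd h (by simp), fun i j u v h => absurd h (by simp), ?_⟩
    intro i
    by_cases ha : pos i = a
    · left; rw [ha]
    by_cases hb : pos i = b
    · right; rw [hb]
    exfalso
    have h1 := hpos (pos i) ha hb
    have h2 : outd A (pos i) = 0 := by rw [hA0]; rfl
    have h3 : 1 ≤ cnt pos (pos i) := by
      unfold cnt
      have := Finset.single_le_sum (f := fun j => if pos j = pos i then 1 else 0)
        (fun j _ => Nat.zero_le _) (Finset.mem_univ i)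
      simpa using this
    omega
  | succ n ih =>
    intro A hA has pos hpos
    by_cases hall : ∀ i, pos i = a ∨ pos i = b
    · refine ⟨fun _ => ⊥, fun i u v h => absurd h (by simp), fun i j u v h => absurd h (by simp), ?_⟩
      intro i
      rcases hall i with h | h
      · left; rw [h]
      · right; rw [h]
    · push Not at hall
      obtain ⟨i0, ha, hb⟩ := hall
      set v := pos i0 with hv
      have h1 := hpos v ha hb
      have h3 : 1 ≤ cnt pos v := by
        unfold cnt
        have := Finset.single_le_sum (f := fun j => if pos j = v then 1 else 0)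
          (fun j _ => Nat.zero_le _) (Finset.mem_univ i0)
        simpa [← hv] using this
      have h4 : 0 < outd A v := by omega
      obtain ⟨⟨v', u⟩, hvu⟩ := Finset.card_pos.1 h4
      rw [Finset.mem_filter] at hvu
      obtain ⟨hmem, h5⟩ := hvu
      simp only at h5
      subst h5
      have huv : u ≠ v := by
        rintro rfl
        exact has _ _ hmem hmem
      obtain ⟨H, hH1, hH2, hH3⟩ := ih (A.erase (v, u)) (by rw [Finset.card_erase_of_mem hmem]; omega)
        (fun x y hxy hyx => has x y (Finset.mem_of_mem_erase hxy) (Finset.mem_of_mem_erase hyx))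
        (Function.update pos i0 u) (by
          intro x hxa hxb
          have e1 := hpos x hxa hxb
          have e2 := outd_erase A u v hmem x
          have e3 := ind_erase A u v hmem x
          have e4 := cnt_update pos i0 u v hv.symm x
          split_ifs at * <;> omega)
      refine ⟨fun i => if i = i0 then H i ⊔ SimpleGraph.edge v u else H i, ?_, ?_, ?_⟩
      · intro i x y h
        by_cases hi : i = i0
        · simp only [hi, if_true, SimpleGraph.sup_adj, SimpleGraph.edge_adj] at h
          rcases h with h | ⟨⟨rfl, rfl⟩ | ⟨rfl, rfl⟩, _⟩
          · rcases hH1 _ _ _ h with h | h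
            · exact Or.inl (Finset.mem_of_mem_erase h)
            · exact Or.inr (Finset.mem_of_mem_erase h)
          · exact Or.inl hmem
          · exact Or.inr hmem
        · simp only [hi, if_false] at h
          rcases hH1 _ _ _ h with h | h
          · exact Or.inl (Finset.mem_of_mem_erase h)
          · exact Or.inr (Finset.mem_of_mem_erase h)
      · have key : ∀ i x y, (H i).Adj x y → ¬ ((x = v ∧ y = u) ∨ (x = u ∧ y = v)) := by
          rintro i x y h (⟨rfl, rfl⟩ | ⟨rfl, rfl⟩)
          · rcases hH1 _ _ _ h with h | h
            · exact absurd h (Finset.notMem_erase _ _)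
            · exact has _ _ hmem (Finset.mem_of_mem_erase h)
          · rcases hH1 _ _ _ h with h | h
            · exact has _ _ hmem (Finset.mem_of_mem_erase h)
            · exact absurd h (Finset.notMem_erase _ _)
        intro i j x y h h'
        by_cases hi : i = i0 <;> by_cases hj : j = i0
        · rw [hi, hj]
        · simp only [hi, hj, if_true, if_false, SimpleGraph.sup_adj, SimpleGraph.edge_adj] at h h'
          rcases h with h | h
          · rw [hi]; exact hH2 _ _ _ _ h h'
          · exact absurd h.1 (key _ _ _ h')
        · simp only [hi, hj, if_true, if_false, SimpleGraph.sup_adj, SimpleGraph.edge_adj] at h h'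
          rcases h' with h' | h'
          · rw [hj]; exact hH2 _ _ _ _ h h'
          · exact absurd h'.1 (key _ _ _ h)
        · simp only [hi, hj, if_false] at h h'
          exact hH2 _ _ _ _ h h'
      · intro i
        by_cases hi : i = i0
        · have hadj : (H i ⊔ SimpleGraph.edge v u).Adj v u := by
            rw [SimpleGraph.sup_adj, SimpleGraph.edge_adj]
            exact Or.inr ⟨Or.inl ⟨rfl, rfl⟩, huv.symm⟩
          have h6 := hH3 i
          rw [hi, Function.update_self] at h6
          rw [hi] at hadj
          simp only [hi, if_true]
          rw [← hv]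
          rcases h6 with h6 | h6
          · exact Or.inl (hadj.reachable.trans (h6.mono le_sup_left))
          · exact Or.inr (hadj.reachable.trans (h6.mono le_sup_left))
        · have h6 := hH3 i
          rw [Function.update_of_ne hi] at h6
          simpa only [hi, if_false] using h6

/-- choice of non-conflicting indices -/
theorem select {α : Type*} [DecidableEq α] (C : α → α → Prop)
    (h1 : ∀ k l l', C k l → C k l' → l = l') (h2 : ∀ k k' l, C k l → C k' l → k = k') :
    ∀ (t : ℕ) (S : Finset α), 3 * t ≤ S.card →
      ∃ K ⊆ S, K.card = t ∧ ∀ k ∈ K, ∀ l ∈ K, C k l → k = l := by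
  classical
  intro t
  induction t with
  | zero => intro S _; exact ⟨∅, by simp, by simp, by simp⟩
  | succ t ih =>
    intro S hS
    have hpos : 0 < S.card := by omega
    obtain ⟨k, hk⟩ := Finset.card_pos.1 hpos
    set S1 := (S.erase k).filter (fun l => ¬ C k l ∧ ¬ C l k) with hS1
    have hcard : 3 * t ≤ S1.card := by
      have e1 : (S.erase k).card = S.card - 1 := Finset.card_erase_of_mem hk
      have e2 := Finset.card_filter_add_card_filter_not (s := S.erase k) (fun l => ¬ C k l ∧ ¬ C l k)
      have e3 : ((S.erase k).filter (fun l => ¬ (¬ C k l ∧ ¬ C l k))).card ≤ 2 := by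
        have : (S.erase k).filter (fun l => ¬ (¬ C k l ∧ ¬ C l k)) ⊆
            (S.erase k).filter (fun l => C k l) ∪ (S.erase k).filter (fun l => C l k) := by
          intro l hl
          simp only [Finset.mem_filter, Finset.mem_union] at hl ⊢
          tauto
        refine (Finset.card_le_card this).trans ((Finset.card_union_le _ _).trans ?_)
        have f1 : ((S.erase k).filter (fun l => C k l)).card ≤ 1 := by
          rw [Finset.card_le_one]
          intro x hx y hy
          simp only [Finset.mem_filter] at hx hy
          exact h1 _ _ _ hx.2 hy.2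
        have f2 : ((S.erase k).filter (fun l => C l k)).card ≤ 1 := by
          rw [Finset.card_le_one]
          intro x hx y hy
          simp only [Finset.mem_filter] at hx hy
          exact h2 _ _ _ hx.2 hy.2
        omega
      rw [← hS1] at e2
      omega
    obtain ⟨K, hK1, hK2, hK3⟩ := ih S1 hcard
    have hkK : k ∉ K := by
      intro h
      have := hK1 h
      rw [hS1] at this
      simp at this
    refine ⟨insert k K, ?_, ?_, ?_⟩
    · intro x hx
      rw [Finset.mem_insert] at hx
      rcases hx with rfl | hx
      · exact hk
      · have := hK1 hx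
        rw [hS1, Finset.mem_filter] at this
        exact Finset.mem_of_mem_erase this.1
    · rw [Finset.card_insert_of_notMem hkK, hK2]
    · intro x hx y hy hxy
      rw [Finset.mem_insert] at hx hy
      rcases hx with rfl | hx <;> rcases hy with rfl | hy
      · rfl
      · have := hK1 hy
        rw [hS1, Finset.mem_filter] at this
        exact absurd hxy this.2.1
      · have := hK1 hx
        rw [hS1, Finset.mem_filter] at this
        exact absurd hxy this.2.2
      · exact hK3 x hx y hy hxy

end Pool.Agent.N418.PPD
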