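import Mathlib
import Pool.Agent.N418.PPD.Flow

set_option autoImplicit false

/-!
Plane straight-line graphs with a partial orientation and a height function; insertion of a vertex
into an empty triangle.
-/

namespace Pool.Agent.N418.PPD

open Finset

/-- the plane -/
abbrev P := ℝ × ℝ

/-- twice the signed area of a triangle -/
def D (s t x : P) : ℝ := (t.1 - s.1) * (x.2 - s.2) - (t.2 - s.2) * (x.1 - s.1)

/-- the open triangle -/
def Tri (s t p : P) : Set P := {x | 0 < D s t x ∧ 0 < D t p x ∧ 0 < D p s x}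

/-- the centroid -/
noncomputable def cen (s t p : P) : P := ((s.1 + t.1 + p.1) / 3, (s.2 + t.2 + p.2) / 3)

theorem cen_rot (s t p : P) : cen s t p = cen t p s := by
  unfold cen
  ext <;> simp <;> ring

theorem Tri_rot (s t p : P) : Tri s t p = Tri t p s := by
  ext x
  simp only [Tri, Set.mem_ofPred_eq]
  tauto

theorem D_rot (s t p : P) : D s t p = D t p s := by unfold D; ring

theorem D_swap (s t x : P) : D t s x = - D s t x := by unfold D; ring

theorem D_comb (s t u v : P) (α β : ℝ) (h : α + β = 1) :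
    D s t (α • u + β • v) = α * D s t u + β * D s t v := by
  have : β = 1 - α := by linarith
  subst this
  simp only [D, Prod.fst_add, Prod.snd_add, Prod.smul_fst, Prod.smul_snd, smul_eq_mul]
  ring

theorem D_sub1 (s t p x : P) : D t (cen s t p) x = (D t p x - D s t x) / 3 := by
  unfold D cen; simp only; ring

theorem D_sub2 (s t p x : P) : D (cen s t p) s x = (D p s x - D s t x) / 3 := by
  unfold D cen; simp only; ring

theorem D_cen (s t p : P) : D s t (cen s t p) = D s t p / 3 := by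
  unfold D cen; simp only; ring

theorem mem_sub {s t p x : P} : x ∈ Tri s t (cen s t p) ↔
    0 < D s t x ∧ D s t x < D t p x ∧ D s t x < D p s x := by
  simp only [Tri, Set.mem_ofPred_eq, D_sub1, D_sub2]
  constructor
  · rintro ⟨h1, h2, h3⟩
    refine ⟨h1, by linarith, by linarith⟩
  · rintro ⟨h1, h2, h3⟩
    refine ⟨h1, by linarith, by linarith⟩

theorem sub_subset (s t p : P) : Tri s t (cen s t p) ⊆ Tri s t p := by
  intro x hx
  rw [mem_sub] at hx
  exact ⟨hx.1, by linarith, by linarith⟩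

/-- points of the segment from a corner to the centroid -/
theorem seg_corner {s t p x : P} (h : 0 < D s t p) (hx : x ∈ openSegment ℝ s (cen s t p)) :
    0 < D s t x ∧ D p s x = D s t x ∧ D s t x < D t p x := by
  obtain ⟨α, β, hα, hβ, hαβ, rfl⟩ := hx
  rw [D_comb _ _ _ _ _ _ hαβ, D_comb _ _ _ _ _ _ hαβ, D_comb _ _ _ _ _ _ hαβ]
  have e1 : D s t s = 0 := by unfold D; ring
  have e2 : D p s s = 0 := by unfold D; ring
  have e3 : D t p s = D s t p := by unfold D; ring
  have e4 : D s t (cen s t p) = D s t p / 3 := D_cen s t p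
  have e5 : D t p (cen s t p) = D s t p / 3 := by rw [cen_rot, D_cen, ← D_rot]
  have e6 : D p s (cen s t p) = D s t p / 3 := by
    rw [cen_rot, cen_rot, D_cen, ← D_rot, ← D_rot]
  rw [e1, e2, e3, e4, e5, e6]
  refine ⟨?_, by ring, ?_⟩
  · have := mul_pos hβ h
    linarith
  · have := mul_pos hα h
    linarith

theorem seg_subset {s t p : P} (h : 0 < D s t p) :
    openSegment ℝ s (cen s t p) ⊆ Tri s t p := by
  intro x hx
  have := seg_corner h hx
  exact ⟨this.1, by linarith, by linarith⟩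

theorem cen_mem {s t p : P} (h : 0 < D s t p) : cen s t p ∈ Tri s t p := by
  refine ⟨?_, ?_, ?_⟩
  · rw [D_cen]; linarith
  · rw [cen_rot, D_cen, ← D_rot]; linarith
  · rw [cen_rot, cen_rot, D_cen, ← D_rot, ← D_rot]; linarith

theorem corner_notMem (s t p : P) : s ∉ Tri s t p := by
  rintro ⟨h, _⟩
  have : D s t s = 0 := by unfold D; ring
  linarith

theorem ne_of_pos {s t p : P} (h : 0 < D s t p) : s ≠ t := by
  rintro rfl
  have : D s s p = 0 := by unfold D; ring
  linarith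

/-- A plane straight-line graph with a partial orientation and heights. -/
structure St where
  /-- vertices -/
  V : Finset P
  /-- edges -/
  G : SimpleGraph P
  /-- arcs -/
  A : Finset (P × P)
  /-- heights -/
  h : P → ℤ

/-- invariants -/
structure Good (S : St) : Prop where
  sup : ∀ u v, S.G.Adj u v → u ∈ S.V ∧ v ∈ S.V
  pl1 : ∀ u v w, S.G.Adj u v → w ∈ S.V → w ∉ openSegment ℝ u v
  pl2 : ∀ u v u' v', S.G.Adj u v → S.G.Adj u' v' → s(u, v) ≠ s(u', v') →
    Disjoint (openSegment ℝ u v) (openSegment ℝ u' v')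
  arc : ∀ u v, (u, v) ∈ S.A → S.G.Adj u v ∧ (v, u) ∉ S.A
  lip : ∀ u v, S.G.Adj u v → |S.h u - S.h v| ≤ 1

/-- an empty triangle -/
structure Emp (S : St) (s t p : P) : Prop where
  hs : s ∈ S.V
  ht : t ∈ S.V
  hp : p ∈ S.V
  pos : 0 < D s t p
  nov : ∀ w ∈ S.V, w ∉ Tri s t p
  noe : ∀ u v, S.G.Adj u v → Disjoint (openSegment ℝ u v) (Tri s t p)
  l1 : |S.h s - S.h t| ≤ 1
  l2 : |S.h t - S.h p| ≤ 1
  l3 : |S.h p - S.h s| ≤ 1

theorem Emp.rot {S : St} {s t p : P} (h : Emp S s t p) : Emp S t p s where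
  hs := h.ht
  ht := h.hp
  hp := h.hs
  pos := by rw [← D_rot]; exact h.pos
  nov := by rw [← Tri_rot]; exact h.nov
  noe := by rw [← Tri_rot]; exact h.noe
  l1 := h.l2
  l2 := h.l3
  l3 := h.l1

/-- insertion of `r` into the triangle `s t p` -/
structure Ins (S S' : St) (s t p r : P) (η : ℤ) : Prop where
  hr : r = cen s t p
  hV : S'.V = insert r S.V
  hG : ∀ u v, S'.G.Adj u v ↔ S.G.Adj u v ∨ (v = r ∧ (u = s ∨ u = t ∨ u = p)) ∨
    (u = r ∧ (v = s ∨ v = t ∨ v = p))
  hh : S'.h = Function.update S.h r η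

theorem Ins.rot {S S' : St} {s t p r : P} {η : ℤ} (h : Ins S S' s t p r η) :
    Ins S S' t p s r η where
  hr := by rw [← cen_rot]; exact h.hr
  hV := h.hV
  hG := by
    intro u v
    rw [h.hG]
    tauto
  hh := h.hh

/-- extension inside the region `R` -/
structure Ext (S S' : St) (R : Set P) : Prop where
  V : S.V ⊆ S'.V
  N : ∀ w ∈ S'.V, w ∉ S.V → w ∈ R
  G : S.G ≤ S'.G
  E : ∀ u v, S'.G.Adj u v → S.G.Adj u v ∨ openSegment ℝ u v ⊆ R
  h : ∀ v ∈ S.V, S'.h v = S.h v

theorem Ext.refl (S : St) (R : Set P) : Ext S S R :=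
  ⟨Finset.Subset.refl _, fun _ h h' => absurd h h', le_rfl, fun _ _ h => Or.inl h, fun _ _ => rfl⟩

theorem Ext.mono {S S' : St} {R R' : Set P} (h : Ext S S' R) (hR : R ⊆ R') : Ext S S' R' :=
  ⟨h.V, fun w h1 h2 => hR (h.N w h1 h2), h.G,
    fun u v huv => (h.E u v huv).imp_right (fun h => h.trans hR), h.h⟩

theorem Ext.trans {S S1 S2 : St} {R : Set P} (h : Ext S S1 R) (h' : Ext S1 S2 R) : Ext S S2 R := by
  refine ⟨h.V.trans h'.V, ?_, h.G.trans h'.G, ?_, ?_⟩
  · intro w hw hw'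
    by_cases h1 : w ∈ S1.V
    · exact h.N w h1 hw'
    · exact h'.N w hw h1
  · intro u v huv
    rcases h'.E u v huv with h1 | h1
    · exact h.E u v h1
    · exact Or.inr h1
  · intro v hv
    rw [h'.h v (h.V hv), h.h v hv]

theorem Ext.emp {S S' : St} {R : Set P} {s t p : P} (h : Ext S S' R) (he : Emp S s t p)
    (hd : Disjoint R (Tri s t p)) : Emp S' s t p where
  hs := h.V he.hs
  ht := h.V he.ht
  hp := h.V he.hp
  pos := he.pos
  nov := by
    intro w hw hw'
    by_cases h1 : w ∈ S.V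
    · exact he.nov w h1 hw'
    · exact Set.disjoint_left.1 hd (h.N w hw h1) hw'
  noe := by
    intro u v huv
    rcases h.E u v huv with h1 | h1
    · exact he.noe u v h1
    · exact Disjoint.mono_left h1 hd
  l1 := by rw [h.h _ he.hs, h.h _ he.ht]; exact he.l1
  l2 := by rw [h.h _ he.ht, h.h _ he.hp]; exact he.l2
  l3 := by rw [h.h _ he.hp, h.h _ he.hs]; exact he.l3

section ins

variable {S S' : St} {s t p r : P} {η : ℤ}

theorem Ins.notMem (h : Ins S S' s t p r η) (he : Emp S s t p) : r ∉ S.V := by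
  intro hr
  apply he.nov r hr
  rw [h.hr]
  exact cen_mem he.pos

/-- the open segment of a new edge is the segment from a corner to the new vertex -/
theorem Ins.new_seg {u v : P}
    (hn : (v = r ∧ (u = s ∨ u = t ∨ u = p)) ∨ (u = r ∧ (v = s ∨ v = t ∨ v = p))) :
    ∃ c, (c = s ∨ c = t ∨ c = p) ∧ s(u, v) = s(c, r) ∧ openSegment ℝ u v = openSegment ℝ c r := by
  rcases hn with ⟨rfl, h⟩ | ⟨rfl, h⟩
  · exact ⟨u, h, rfl, rfl⟩
  · exact ⟨v, h, Sym2.eq_swap, openSegment_symm _ _ _⟩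

/-- position of the points of the segment from a corner to the new vertex -/
theorem Ins.seg_pos (h : Ins S S' s t p r η) (he : Emp S s t p) {c x : P}
    (hc : c = s ∨ c = t ∨ c = p) (hx : x ∈ openSegment ℝ c r) :
    (c = s ∧ 0 < D s t x ∧ D p s x = D s t x ∧ D s t x < D t p x) ∨
    (c = t ∧ 0 < D t p x ∧ D s t x = D t p x ∧ D t p x < D p s x) ∨
    (c = p ∧ 0 < D p s x ∧ D t p x = D p s x ∧ D p s x < D s t x) := by
  rcases hc with rfl | rfl | rfl
  · left
    refine ⟨rfl, ?_⟩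
    rw [h.hr] at hx
    exact seg_corner he.pos hx
  · right; left
    refine ⟨rfl, ?_⟩
    rw [h.rot.hr] at hx
    exact seg_corner he.rot.pos hx
  · right; right
    refine ⟨rfl, ?_⟩
    rw [h.rot.rot.hr] at hx
    exact seg_corner he.rot.rot.pos hx

theorem Ins.seg_sub (h : Ins S S' s t p r η) (he : Emp S s t p) {c : P}
    (hc : c = s ∨ c = t ∨ c = p) : openSegment ℝ c r ⊆ Tri s t p := by
  intro x hx
  rcases h.seg_pos he hc hx with ⟨_, h1, h2, h3⟩ | ⟨_, h1, h2, h3⟩ | ⟨_, h1, h2, h3⟩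
  · exact ⟨by linarith, by linarith, by linarith⟩
  · exact ⟨by linarith, by linarith, by linarith⟩
  · exact ⟨by linarith, by linarith, by linarith⟩

theorem Ins.ext (h : Ins S S' s t p r η) (he : Emp S s t p) : Ext S S' (Tri s t p) := by
  refine ⟨?_, ?_, ?_, ?_, ?_⟩
  · rw [h.hV]; exact Finset.subset_insert _ _
  · intro w hw hw'
    rw [h.hV, Finset.mem_insert] at hw
    rcases hw with rfl | hw
    · rw [h.hr]; exact cen_mem he.pos
    · exact absurd hw hw'
  · intro u v huv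
    rw [h.hG]; exact Or.inl huv
  · intro u v huv
    rw [h.hG] at huv
    rcases huv with h1 | h1
    · exact Or.inl h1
    · obtain ⟨c, hc, -, hseg⟩ := Ins.new_seg h1
      rw [hseg]
      exact Or.inr (h.seg_sub he hc)
  · intro v hv
    rw [h.hh, Function.update_of_ne]
    rintro rfl
    exact h.notMem he hv

theorem Ins.cen_D (h : Ins S S' s t p r η) : D s t r = D s t p / 3 ∧ D t p r = D s t p / 3 ∧
    D p s r = D s t p / 3 := by
  refine ⟨?_, ?_, ?_⟩
  · rw [h.hr, D_cen]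
  · rw [h.rot.hr, D_cen, ← D_rot]
  · rw [h.rot.rot.hr, D_cen, ← D_rot, ← D_rot]

theorem Ins.good (h : Ins S S' s t p r η) (hg : Good S) (he : Emp S s t p)
    (h1 : |S.h s - η| ≤ 1) (h2 : |S.h t - η| ≤ 1) (h3 : |S.h p - η| ≤ 1)
    (harc : ∀ u v, (u, v) ∈ S'.A → S'.G.Adj u v ∧ (v, u) ∉ S'.A) : Good S' := by
  have hr : r ∉ S.V := h.notMem he
  have hcV : ∀ c, (c = s ∨ c = t ∨ c = p) → c ∈ S.V := by
    rintro c (rfl | rfl | rfl)
    · exact he.hs
    · exact he.ht
    · exact he.hp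
  have hcD := h.cen_D
  have hpos := he.pos
  refine ⟨?_, ?_, ?_, harc, ?_⟩
  · intro u v huv
    rw [h.hG] at huv
    rw [h.hV, Finset.mem_insert, Finset.mem_insert]
    rcases huv with h4 | ⟨rfl, hc⟩ | ⟨rfl, hc⟩
    · have := hg.sup u v h4; tauto
    · exact ⟨Or.inr (hcV _ hc), Or.inl rfl⟩
    · exact ⟨Or.inl rfl, Or.inr (hcV _ hc)⟩
  · intro u v w huv hw hmem
    rw [h.hG] at huv
    rw [h.hV, Finset.mem_insert] at hw
    rcases huv with h4 | h4
    · rcases hw with rfl | hw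
      · refine Set.disjoint_left.1 (he.noe u v h4) hmem ?_
        rw [h.hr]
        exact cen_mem he.pos
      · exact hg.pl1 u v w h4 hw hmem
    · obtain ⟨c, hc, -, hseg⟩ := Ins.new_seg h4
      rw [hseg] at hmem
      rcases hw with rfl | hw
      · rcases h.seg_pos he hc hmem with ⟨_, h5, h6, h7⟩ | ⟨_, h5, h6, h7⟩ | ⟨_, h5, h6, h7⟩ <;>
          linarith [hcD.1, hcD.2.1, hcD.2.2]
      · exact he.nov w hw (h.seg_sub he hc hmem)
  · intro u v u' v' huv huv' hne
    rw [h.hG] at huv huv'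
    rcases huv with h4 | h4 <;> rcases huv' with h5 | h5
    · exact hg.pl2 u v u' v' h4 h5 hne
    · obtain ⟨c, hc, -, hseg⟩ := Ins.new_seg h5
      rw [hseg]
      exact Disjoint.mono_right (h.seg_sub he hc) (he.noe u v h4)
    · obtain ⟨c, hc, -, hseg⟩ := Ins.new_seg h4
      rw [hseg]
      exact (Disjoint.mono_right (h.seg_sub he hc) (he.noe u' v' h5)).symm
    · obtain ⟨c, hc, hs1, hseg⟩ := Ins.new_seg h4
      obtain ⟨c', hc', hs2, hseg'⟩ := Ins.new_seg h5
      rw [hseg, hseg', Set.disjoint_left]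
      intro x hx hx'
      have hcc : c ≠ c' := by
        rintro rfl
        exact hne (hs1.trans hs2.symm)
      rcases h.seg_pos he hc hx with ⟨e, h6, h7, h8⟩ | ⟨e, h6, h7, h8⟩ | ⟨e, h6, h7, h8⟩ <;>
      rcases h.seg_pos he hc' hx' with ⟨e', h9, h10, h11⟩ | ⟨e', h9, h10, h11⟩ |
        ⟨e', h9, h10, h11⟩ <;>
      first
        | exact hcc (e.trans e'.symm)
        | linarith
  · intro u v huv
    rw [h.hG] at huv
    have hne : ∀ c, c ∈ S.V → c ≠ r := by
      rintro c hc rfl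
      exact hr hc
    have key : ∀ c, (c = s ∨ c = t ∨ c = p) → |S.h c - η| ≤ 1 := by
      rintro c (rfl | rfl | rfl)
      · exact h1
      · exact h2
      · exact h3
    rw [h.hh]
    rcases huv with h4 | ⟨rfl, hc⟩ | ⟨rfl, hc⟩
    · have := hg.sup u v h4
      rw [Function.update_of_ne (hne _ this.1), Function.update_of_ne (hne _ this.2)]
      exact hg.lip u v h4
    · rw [Function.update_self, Function.update_of_ne (hne _ (hcV _ hc))]
      exact key _ hc
    · rw [Function.update_self, Function.update_of_ne (hne _ (hcV _ hc)), abs_sub_comm]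
      exact key _ hc

theorem Ins.emp (h : Ins S S' s t p r η) (he : Emp S s t p)
    (h1 : |S.h s - η| ≤ 1) (h2 : |S.h t - η| ≤ 1) : Emp S' s t r := by
  have hr : r ∉ S.V := h.notMem he
  have hcD := h.cen_D
  have hpos := he.pos
  have hne : ∀ c, c ∈ S.V → c ≠ r := by
    rintro c hc rfl
    exact hr hc
  have hsub : Tri s t r ⊆ Tri s t p := by rw [h.hr]; exact sub_subset s t p
  have hmem : ∀ x, x ∈ Tri s t r ↔ 0 < D s t x ∧ D s t x < D t p x ∧ D s t x < D p s x := by
    intro x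
    rw [h.hr]
    exact mem_sub
  refine ⟨?_, ?_, ?_, ?_, ?_, ?_, ?_, ?_, ?_⟩
  · rw [h.hV]; exact Finset.mem_insert_of_mem he.hs
  · rw [h.hV]; exact Finset.mem_insert_of_mem he.ht
  · rw [h.hV]; exact Finset.mem_insert_self _ _
  · linarith [hcD.1]
  · intro w hw hw'
    rw [h.hV, Finset.mem_insert] at hw
    rcases hw with rfl | hw
    · rw [hmem] at hw'
      linarith [hcD.1, hcD.2.1]
    · exact he.nov w hw (hsub hw')
  · intro u v huv
    rw [h.hG] at huv
    rcases huv with h4 | h4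
    · exact Disjoint.mono_right hsub (he.noe u v h4)
    · obtain ⟨c, hc, -, hseg⟩ := Ins.new_seg h4
      rw [hseg, Set.disjoint_left]
      intro x hx hx'
      rw [hmem] at hx'
      rcases h.seg_pos he hc hx with ⟨_, h5, h6, h7⟩ | ⟨_, h5, h6, h7⟩ | ⟨_, h5, h6, h7⟩ <;>
        linarith
  · rw [h.hh, Function.update_of_ne (hne _ he.hs), Function.update_of_ne (hne _ he.ht)]
    exact he.l1
  · rw [h.hh, Function.update_self, Function.update_of_ne (hne _ he.ht)]
    exact h2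
  · rw [h.hh, Function.update_self, Function.update_of_ne (hne _ he.hs), abs_sub_comm]
    exact h1

/-- the first two subtriangles are disjoint -/
theorem Ins.disj (h : Ins S S' s t p r η) : Disjoint (Tri s t r) (Tri t p r) := by
  rw [Set.disjoint_left]
  intro x hx hx'
  have e1 : x ∈ Tri s t (cen s t p) := by rw [← h.hr]; exact hx
  have e2 : x ∈ Tri t p (cen t p s) := by rw [← h.rot.hr]; exact hx'
  rw [mem_sub] at e1 e2
  linarith [e1.2.1, e2.2.2]

theorem Ins.sub (h : Ins S S' s t p r η) : Tri s t r ⊆ Tri s t p := by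
  rw [h.hr]; exact sub_subset s t p

end ins

/-- existence of the insertion, with arcs `B` -/
noncomputable def mk (S : St) (s t p : P) (η : ℤ) (B : Finset (P × P)) : St where
  V := insert (cen s t p) S.V
  G := SimpleGraph.fromRel (fun u v => S.G.Adj u v ∨ (v = cen s t p ∧ (u = s ∨ u = t ∨ u = p)))
  A := S.A ∪ B
  h := Function.update S.h (cen s t p) η

theorem mk_ins {S : St} {s t p : P} (he : Emp S s t p) (η : ℤ) (B : Finset (P × P)) :
    Ins S (mk S s t p η B) s t p (cen s t p) η := by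
  have hr : cen s t p ∉ S.V := fun h => he.nov _ h (cen_mem he.pos)
  have hne : ∀ c, c ∈ S.V → c ≠ cen s t p := fun c hc h => hr (h ▸ hc)
  have hcV : ∀ c, (c = s ∨ c = t ∨ c = p) → c ∈ S.V := by
    rintro c (rfl | rfl | rfl)
    · exact he.hs
    · exact he.ht
    · exact he.hp
  refine ⟨rfl, rfl, ?_, rfl⟩
  intro u v
  show (SimpleGraph.fromRel _).Adj u v ↔ _
  rw [SimpleGraph.fromRel_adj]
  constructor
  · rintro ⟨_, (h | h) | (h | h)⟩
    · exact Or.inl h
    · exact Or.inr (Or.inl h)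
    · exact Or.inl h.symm
    · exact Or.inr (Or.inr h)
  · rintro (h | ⟨rfl, h⟩ | ⟨rfl, h⟩)
    · exact ⟨h.ne, Or.inl (Or.inl h)⟩
    · exact ⟨hne _ (hcV _ h), Or.inl (Or.inr ⟨rfl, h⟩)⟩
    · exact ⟨(hne _ (hcV _ h)).symm, Or.inr (Or.inr ⟨rfl, h⟩)⟩

/-- insertion without arcs -/
theorem ins0 {S : St} {s t p : P} (hg : Good S) (he : Emp S s t p) (η : ℤ)
    (h1 : |S.h s - η| ≤ 1) (h2 : |S.h t - η| ≤ 1) (h3 : |S.h p - η| ≤ 1) :
    ∃ S' r, Good S' ∧ Ins S S' s t p r η ∧ S'.A = S.A := by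
  have hi := mk_ins he η ∅
  refine ⟨mk S s t p η ∅, cen s t p, ?_, hi, ?_⟩
  · refine hi.good hg he h1 h2 h3 ?_
    intro u v huv
    have hA : (mk S s t p η ∅).A = S.A := by simp [mk]
    rw [hA] at huv ⊢
    exact ⟨(hi.hG u v).2 (Or.inl (hg.arc u v huv).1), (hg.arc u v huv).2⟩
  · simp [mk]

/-- insertion with three arcs -/
theorem ins1 {S : St} {s t p : P} (hg : Good S) (he : Emp S s t p) (η : ℤ)
    (h1 : |S.h s - η| ≤ 1) (h2 : |S.h t - η| ≤ 1) (h3 : |S.h p - η| ≤ 1) :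
    ∃ S' r, Good S' ∧ Ins S S' s t p r η ∧ S'.A = insert (s, r) (insert (r, t) (insert (r, p) S.A)) := by
  set r := cen s t p with hr
  set B : Finset (P × P) := {(s, r), (r, t), (r, p)} with hB
  have hi := mk_ins he η B
  have hrV : r ∉ S.V := hi.notMem he
  have hA : (mk S s t p η B).A = insert (s, r) (insert (r, t) (insert (r, p) S.A)) := by
    show S.A ∪ B = _
    rw [hB]
    ext x
    simp only [Finset.mem_union, Finset.mem_insert, Finset.mem_singleton]
    tauto
  have hsr : s ≠ r := fun h => hrV (h ▸ he.hs)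
  have htr : t ≠ r := fun h => hrV (h ▸ he.ht)
  have hpr : p ≠ r := fun h => hrV (h ▸ he.hp)
  have hst : s ≠ t := ne_of_pos he.pos
  have htp : t ≠ p := ne_of_pos he.rot.pos
  have hps : p ≠ s := ne_of_pos he.rot.rot.pos
  refine ⟨mk S s t p η B, r, ?_, hi, hA⟩
  refine hi.good hg he h1 h2 h3 ?_
  intro u v huv
  rw [hA] at huv ⊢
  have hno : ∀ u v, (u, v) ∈ S.A → u ≠ r ∧ v ≠ r := by
    intro u v h
    have := hg.sup u v (hg.arc u v h).1
    exact ⟨fun h => hrV (h ▸ this.1), fun h => hrV (h ▸ this.2)⟩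
  simp only [Finset.mem_insert, Prod.mk.injEq] at huv ⊢
  rw [hi.hG]
  rcases huv with ⟨rfl, rfl⟩ | ⟨rfl, rfl⟩ | ⟨rfl, rfl⟩ | h
  · refine ⟨Or.inr (Or.inl ⟨rfl, Or.inl rfl⟩), ?_⟩
    rintro (⟨h4, h5⟩ | ⟨h4, h5⟩ | ⟨h4, h5⟩ | h4)
    · exact hsr h5
    · exact hst h5
    · exact hps h5.symm
    · exact (hno _ _ h4).1 rfl
  · refine ⟨Or.inr (Or.inr ⟨rfl, Or.inr (Or.inl rfl)⟩), ?_⟩
    rintro (⟨h4, h5⟩ | ⟨h4, h5⟩ | ⟨h4, h5⟩ | h4)
    · exact hst h4.symm
    · exact htr h4
    · exact htr h4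
    · exact (hno _ _ h4).2 rfl
  · refine ⟨Or.inr (Or.inr ⟨rfl, Or.inr (Or.inr rfl)⟩), ?_⟩
    rintro (⟨h4, h5⟩ | ⟨h4, h5⟩ | ⟨h4, h5⟩ | h4)
    · exact hps h4
    · exact hpr h4
    · exact hpr h4
    · exact (hno _ _ h4).2 rfl
  · refine ⟨Or.inl (hg.arc u v h).1, ?_⟩
    have h0 := hno u v h
    rintro (⟨h4, h5⟩ | ⟨h4, h5⟩ | ⟨h4, h5⟩ | h4)
    · exact h0.1 h5
    · exact h0.2 h4
    · exact h0.2 h4
    · exact (hg.arc u v h).2 h4

end Pool.Agent.N418.PPD
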