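import Mathlib
import Pool.Agent.N418.PPD.Geo

set_option autoImplicit false

/-!
Boosting the excess of a corner of an empty triangle, and deep vertices.
-/

namespace Pool.Agent.N418.PPD

open Finset

/-- excess -/
noncomputable def ex (S : St) (v : P) : ℤ := (outd S.A v : ℤ) - (ind S.A v : ℤ)

/-- same arcs at `v` -/
def Same (S S' : St) (v : P) : Prop :=
  ∀ u, ((u, v) ∈ S'.A ↔ (u, v) ∈ S.A) ∧ ((v, u) ∈ S'.A ↔ (v, u) ∈ S.A)

theorem Same.ex {S S' : St} {v : P} (h : Same S S' v) : ex S' v = ex S v := by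
  have h1 : outd S'.A v = outd S.A v := by
    unfold outd
    congr 1
    ext ⟨x, y⟩
    simp only [Finset.mem_filter]
    constructor
    · rintro ⟨h1, rfl⟩; exact ⟨(h y).2.1 h1, rfl⟩
    · rintro ⟨h1, rfl⟩; exact ⟨(h y).2.2 h1, rfl⟩
  have h2 : ind S'.A v = ind S.A v := by
    unfold ind
    congr 1
    ext ⟨x, y⟩
    simp only [Finset.mem_filter]
    constructor
    · rintro ⟨h3, h4⟩; exact ⟨by rw [h4] at h3 ⊢; exact (h x).1.1 h3, h4⟩
    · rintro ⟨h3, h4⟩; exact ⟨by rw [h4] at h3 ⊢; exact (h x).1.2 h3, h4⟩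
  unfold PPD.ex
  rw [h1, h2]

theorem Same.trans {S S1 S2 : St} {v : P} (h : Same S S1 v) (h' : Same S1 S2 v) : Same S S2 v :=
  fun u => ⟨(h' u).1.trans (h u).1, (h' u).2.trans (h u).2⟩

theorem Same.of_eq {S S' : St} {v : P} (h : S'.A = S.A) : Same S S' v := by
  intro u; rw [h]; exact ⟨Iff.rfl, Iff.rfl⟩

/-- `S'` is built from `S` inside the region `R`, with the arcs at old vertices outside `X` kept and
with all new vertices outside `X` of excess at least one. -/
structure Bld (S S' : St) (R : Set P) (X : Set P) : Prop where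
  good : Good S'
  ext : Ext S S' R
  same : ∀ v ∈ S.V, v ∉ X → Same S S' v
  new : ∀ v ∈ S'.V, v ∉ S.V → v ∉ X → 1 ≤ ex S' v

theorem Bld.mono {S S' : St} {R R' X X' : Set P} (h : Bld S S' R X) (hR : R ⊆ R') (hX : X ⊆ X') :
    Bld S S' R' X' :=
  ⟨h.good, h.ext.mono hR, fun v hv hx => h.same v hv (fun h' => hx (hX h')),
    fun v hv hv' hx => h.new v hv hv' (fun h' => hx (hX h'))⟩

theorem Bld.trans {S S1 S2 : St} {R X : Set P} (h : Bld S S1 R X) (h' : Bld S1 S2 R X) :
    Bld S S2 R X := by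
  refine ⟨h'.good, h.ext.trans h'.ext, ?_, ?_⟩
  · intro v hv hx
    exact (h.same v hv hx).trans (h'.same v (h.ext.V hv) hx)
  · intro v hv hv' hx
    by_cases h1 : v ∈ S1.V
    · rw [(h'.same v h1 hx).ex]
      exact h.new v h1 hv' hx
    · exact h'.new v hv h1 hx

theorem Bld.refl {S : St} (hg : Good S) (R X : Set P) : Bld S S R X :=
  ⟨hg, Ext.refl S R, fun _ _ _ => Same.of_eq rfl, fun _ h h' _ => absurd h h'⟩

/-- inserting without arcs -/
theorem bld0 {S : St} {s t p : P} (hg : Good S) (he : Emp S s t p) (η : ℤ)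
    (h1 : |S.h s - η| ≤ 1) (h2 : |S.h t - η| ≤ 1) (h3 : |S.h p - η| ≤ 1) :
    ∃ S' r, Ins S S' s t p r η ∧ Bld S S' (Tri s t p) {r} ∧ S'.A = S.A ∧ r ∉ S.V ∧ S'.h r = η ∧
      Emp S' s t r ∧ Emp S' t p r ∧ Emp S' p s r := by
  obtain ⟨S', r, hg', hi, hA⟩ := ins0 hg he η h1 h2 h3
  refine ⟨S', r, hi, ⟨hg', hi.ext he, fun _ _ _ => Same.of_eq hA, ?_⟩, hA, hi.notMem he, ?_,
    hi.emp he h1 h2, hi.rot.emp he.rot h2 h3, hi.rot.rot.emp he.rot.rot h3 h1⟩
  · intro v hv hv' hx
    rw [hi.hV, Finset.mem_insert] at hv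
    rcases hv with rfl | hv
    · exact absurd rfl hx
    · exact absurd hv hv'
  · rw [hi.hh, Function.update_self]

theorem outd_insert (A : Finset (P × P)) (q : P × P) (hq : q ∉ A) (v : P) :
    outd (insert q A) v = outd A v + (if q.1 = v then 1 else 0) := by
  unfold outd
  rw [Finset.filter_insert]
  split_ifs with h
  · rw [Finset.card_insert_of_notMem]
    intro h'
    exact hq (Finset.mem_of_mem_filter _ h')
  · rfl

theorem ind_insert (A : Finset (P × P)) (q : P × P) (hq : q ∉ A) (v : P) :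
    ind (insert q A) v = ind A v + (if q.2 = v then 1 else 0) := by
  unfold ind
  rw [Finset.filter_insert]
  split_ifs with h
  · rw [Finset.card_insert_of_notMem]
    intro h'
    exact hq (Finset.mem_of_mem_filter _ h')
  · rfl

/-- inserting with three arcs -/
theorem bld1 {S : St} {s t p : P} (hg : Good S) (he : Emp S s t p) (η : ℤ)
    (h1 : |S.h s - η| ≤ 1) (h2 : |S.h t - η| ≤ 1) (h3 : |S.h p - η| ≤ 1) :
    ∃ S' r, Ins S S' s t p r η ∧ Bld S S' (Tri s t p) {s, t, p} ∧ r ∉ S.V ∧ S'.h r = η ∧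
      ex S' s = ex S s + 1 ∧ ex S' t = ex S t - 1 ∧ ex S' r = 1 ∧
      Emp S' s t r ∧ Emp S' t p r ∧ Emp S' p s r := by
  obtain ⟨S', r, hg', hi, hA⟩ := ins1 hg he η h1 h2 h3
  have hrV : r ∉ S.V := hi.notMem he
  have hsr : s ≠ r := fun h => hrV (h ▸ he.hs)
  have htr : t ≠ r := fun h => hrV (h ▸ he.ht)
  have hpr : p ≠ r := fun h => hrV (h ▸ he.hp)
  have hst : s ≠ t := ne_of_pos he.pos
  have htp : t ≠ p := ne_of_pos he.rot.pos
  have hps : p ≠ s := ne_of_pos he.rot.rot.pos
  have hno : ∀ u v, (u, v) ∈ S.A → u ≠ r ∧ v ≠ r := by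
    intro u v h
    have := hg.sup u v (hg.arc u v h).1
    exact ⟨fun h => hrV (h ▸ this.1), fun h => hrV (h ▸ this.2)⟩
  have q3 : (r, p) ∉ S.A := fun h => (hno _ _ h).1 rfl
  have q2 : (r, t) ∉ insert (r, p) S.A := by
    simp only [Finset.mem_insert, Prod.mk.injEq, true_and]
    rintro (h | h)
    · exact htp h
    · exact (hno _ _ h).1 rfl
  have q1 : (s, r) ∉ insert (r, t) (insert (r, p) S.A) := by
    simp only [Finset.mem_insert, Prod.mk.injEq]
    rintro (h | h | h)
    · exact hsr h.1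
    · exact hsr h.1
    · exact (hno _ _ h).2 rfl
  have hex : ∀ v, ex S' v = ex S v + (if s = v then 1 else 0) + (if r = v then 1 else 0)
      + (if r = v then 1 else 0) - (if r = v then 1 else 0) - (if t = v then 1 else 0)
      - (if p = v then 1 else 0) := by
    intro v
    unfold ex
    rw [hA, outd_insert _ _ q1, outd_insert _ _ q2, outd_insert _ _ q3, ind_insert _ _ q1,
      ind_insert _ _ q2, ind_insert _ _ q3]
    push_cast
    ring
  have hr0 : ex S r = 0 := by
    have e1 : outd S.A r = 0 := by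
      unfold outd
      rw [Finset.card_eq_zero, Finset.filter_eq_empty_iff]
      rintro ⟨x, y⟩ hx h
      exact (hno _ _ hx).1 h
    have e2 : ind S.A r = 0 := by
      unfold ind
      rw [Finset.card_eq_zero, Finset.filter_eq_empty_iff]
      rintro ⟨x, y⟩ hx h
      exact (hno _ _ hx).2 h
    unfold ex
    rw [e1, e2]; rfl
  have her : ex S' r = 1 := by
    rw [hex, hr0, if_pos rfl, if_neg hsr, if_neg htr, if_neg hpr]; norm_num
  refine ⟨S', r, hi, ⟨hg', hi.ext he, ?_, ?_⟩, hrV, ?_, ?_, ?_, her,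
    hi.emp he h1 h2, hi.rot.emp he.rot h2 h3, hi.rot.rot.emp he.rot.rot h3 h1⟩
  · intro v hv hx
    have hvr : v ≠ r := fun h => hrV (h ▸ hv)
    simp only [Set.mem_insert_iff, Set.mem_singleton_iff, not_or] at hx
    intro u
    rw [hA]
    simp only [Finset.mem_insert, Prod.mk.injEq]
    constructor
    · constructor
      · rintro (h | h | h | h)
        · exact absurd h.2 hvr
        · exact absurd h.2 hx.2.1
        · exact absurd h.2 hx.2.2
        · exact h
      · exact fun h => Or.inr (Or.inr (Or.inr h))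
    · constructor
      · rintro (h | h | h | h)
        · exact absurd h.1 hx.1
        · exact absurd h.1 hvr
        · exact absurd h.1 hvr
        · exact h
      · exact fun h => Or.inr (Or.inr (Or.inr h))
  · intro v hv hv' _
    rw [hi.hV, Finset.mem_insert] at hv
    rcases hv with rfl | hv
    · rw [her]
    · exact absurd hv hv'
  · rw [hi.hh, Function.update_self]
  · rw [hex, if_pos rfl, if_neg hsr.symm, if_neg hst.symm, if_neg hps]; ring
  · rw [hex, if_neg hst, if_neg htr.symm, if_pos rfl, if_neg htp.symm]; ring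

/-- Boosting: the excess of `s` is raised by `k` at the expense of `t` and `p`. -/
theorem boost : ∀ (k : ℕ) (S : St) (s t p : P), Good S → Emp S s t p →
    ∃ S', Bld S S' (Tri s t p) {s, t, p} ∧ ex S' s = ex S s + k ∧ ex S' t = ex S t - k := by
  intro k
  induction k with
  | zero =>
    intro S s t p hg _
    exact ⟨S, Bld.refl hg _ _, by simp, by simp⟩
  | succ k ih =>
    intro S s t p hg he
    obtain ⟨S1, r, hi, hb1, hrV, hr1, hs1, ht1, her, e1, e2, e3⟩ := bld1 hg he (S.h s)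
      (by simp) (by rw [abs_sub_comm]; exact he.l1) he.l3
    have hsr : s ≠ r := fun h => hrV (h ▸ he.hs)
    have htr : t ≠ r := fun h => hrV (h ▸ he.ht)
    have hpr : p ≠ r := fun h => hrV (h ▸ he.hp)
    have hst : s ≠ t := ne_of_pos he.pos
    have htp : t ≠ p := ne_of_pos he.rot.pos
    have hps : p ≠ s := ne_of_pos he.rot.rot.pos
    -- boost `s` in the triangle `s r p`
    obtain ⟨S2, hb2, hs2, hr2⟩ := ih S1 s r p hb1.good e3.rot
    have hsub2 : Tri s r p ⊆ Tri s t p := by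
      rw [← Tri_rot p s r, Tri_rot s t p, Tri_rot t p s]
      exact hi.rot.rot.sub
    have hdis : Disjoint (Tri s r p) (Tri t p r) := by
      rw [← Tri_rot p s r]
      exact (hi.rot.disj).symm
    have e4 : Emp S2 t p r := hb2.ext.emp e2 hdis
    -- boost `r` in the triangle `r t p`
    obtain ⟨S3, hb3, hr3, ht3⟩ := ih S2 r t p hb2.good e4.rot.rot
    have hsub3 : Tri r t p ⊆ Tri s t p := by
      rw [Tri_rot r t p, Tri_rot s t p]
      exact hi.rot.sub
    -- the excess of `t` in `S2`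
    have ht2 : ex S2 t = ex S1 t := by
      apply (hb2.same t (hb1.ext.V he.ht) _).ex
      simp only [Set.mem_insert_iff, Set.mem_singleton_iff, not_or]
      exact ⟨hst.symm, htr, htp⟩
    have hs3 : ex S3 s = ex S2 s := by
      apply (hb3.same s (hb2.ext.V (hb1.ext.V he.hs)) _).ex
      simp only [Set.mem_insert_iff, Set.mem_singleton_iff, not_or]
      exact ⟨hsr, hst, hps.symm⟩
    have hr3' : ex S3 r = 1 := by rw [hr3, hr2, her]; ring
    have hX : ({s, t, p} : Set P) ⊆ {s, t, p, r} := by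
      intro x hx
      simp only [Set.mem_insert_iff, Set.mem_singleton_iff] at hx ⊢
      tauto
    have hX2 : ({s, r, p} : Set P) ⊆ {s, t, p, r} := by
      intro x hx
      simp only [Set.mem_insert_iff, Set.mem_singleton_iff] at hx ⊢
      tauto
    have hX3 : ({r, t, p} : Set P) ⊆ {s, t, p, r} := by
      intro x hx
      simp only [Set.mem_insert_iff, Set.mem_singleton_iff] at hx ⊢
      tauto
    have hb : Bld S S3 (Tri s t p) {s, t, p, r} :=
      ((hb1.mono (Set.Subset.refl _) hX).trans (hb2.mono hsub2 hX2)).trans (hb3.mono hsub3 hX3)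
    refine ⟨S3, ⟨hb.good, hb.ext, ?_, ?_⟩, ?_, ?_⟩
    · intro v hv hx
      apply hb.same v hv
      simp only [Set.mem_insert_iff, Set.mem_singleton_iff, not_or] at hx ⊢
      exact ⟨hx.1, hx.2.1, hx.2.2, fun h => hrV (h ▸ hv)⟩
    · intro v hv hv' hx
      by_cases hvr : v = r
      · rw [hvr, hr3']
      · apply hb.new v hv hv'
        simp only [Set.mem_insert_iff, Set.mem_singleton_iff, not_or] at hx ⊢
        exact ⟨hx.1, hx.2.1, hx.2.2, hvr⟩
    · rw [hs3, hs2, hs1]; push_cast; ring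
    · rw [ht3, ht2, ht1]; push_cast; ring

/-- The excess of a corner of an empty triangle can be made positive. -/
theorem fix {S : St} {s t p : P} (hg : Good S) (he : Emp S s t p) :
    ∃ S', Bld S S' (Tri s t p) {s, t, p} ∧ 1 ≤ ex S' s := by
  obtain ⟨S', hb, hs, _⟩ := boost (1 - ex S s).toNat S s t p hg he
  refine ⟨S', hb, ?_⟩
  rw [hs]
  have := Int.self_le_toNat (1 - ex S s)
  linarith

/-- Deep vertices. -/
theorem deep : ∀ (N : ℕ) (S : St) (p q r : P) (c : ℤ), Good S → Emp S p q r → S.h p = c →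
    S.h q = c → S.h r = c →
    ∃ S', Bld S S' (Tri p q r) {p, q, r} ∧ ∃ x ∈ S'.V, S'.h x = c + N := by
  intro N
  induction N with
  | zero =>
    intro S p q r c hg he hp _ _
    exact ⟨S, Bld.refl hg _ _, p, he.hp |> fun _ => he.hs, by rw [hp]; simp⟩
  | succ N ih =>
    intro S p q r c hg he hp hq hr
    have hpq : p ≠ q := ne_of_pos he.pos
    have hqr : q ≠ r := ne_of_pos he.rot.pos
    have hrp : r ≠ p := ne_of_pos he.rot.rot.pos
    -- `u1`
    obtain ⟨S1, u1, hi1, hb1, hA1, hu1, hh1, a1, a2, a3⟩ := bld0 hg he (c + 1)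
      (by rw [hp]; simp) (by rw [hq]; simp) (by rw [hr]; simp)
    have hp1 : S1.h p = c := by rw [hb1.ext.h p he.hs, hp]
    have hq1 : S1.h q = c := by rw [hb1.ext.h q he.ht, hq]
    -- `u2`
    obtain ⟨S2, u2, hi2, hb2, hA2, hu2, hh2, b1, b2, b3⟩ := bld0 hb1.good a1 (c + 1)
      (by rw [hp1]; simp) (by rw [hq1]; simp) (by rw [hh1]; simp)
    have hp2 : S2.h p = c := by rw [hb2.ext.h p a1.hs, hp1]
    have hu12 : S2.h u1 = c + 1 := by rw [hb2.ext.h u1 a1.hp, hh1]
    -- `u3` in `u1 p u2`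
    obtain ⟨S3, u3, hi3, hb3, hA3, hu3, hh3, c1, c2, c3⟩ := bld0 hb2.good b3 (c + 1)
      (by rw [hu12]; simp) (by rw [hp2]; simp) (by rw [hh2]; simp)
    have hu13 : S3.h u1 = c + 1 := by rw [hb3.ext.h u1 b3.hs, hu12]
    have hu23 : S3.h u2 = c + 1 := by rw [hb3.ext.h u2 b3.hp, hh2]
    -- distinctness
    have hu1p : u1 ≠ p := fun h => hu1 (h ▸ he.hs)
    have hu1q : u1 ≠ q := fun h => hu1 (h ▸ he.ht)
    have hu1r : u1 ≠ r := fun h => hu1 (h ▸ he.hp)
    have hpS1 : p ∈ S1.V := hb1.ext.V he.hs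
    have hqS1 : q ∈ S1.V := hb1.ext.V he.ht
    have hrS1 : r ∈ S1.V := hb1.ext.V he.hp
    have hu1S1 : u1 ∈ S1.V := a1.hp
    have hu2p : u2 ≠ p := fun h => hu2 (h ▸ hpS1)
    have hu2q : u2 ≠ q := fun h => hu2 (h ▸ hqS1)
    have hu2r : u2 ≠ r := fun h => hu2 (h ▸ hrS1)
    have hu2u1 : u2 ≠ u1 := fun h => hu2 (h ▸ hu1S1)
    have hu3p : u3 ≠ p := fun h => hu3 (h ▸ hb2.ext.V hpS1)
    have hu3q : u3 ≠ q := fun h => hu3 (h ▸ hb2.ext.V hqS1)
    have hu3r : u3 ≠ r := fun h => hu3 (h ▸ hb2.ext.V hrS1)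
    have hu3u1 : u3 ≠ u1 := fun h => hu3 (h ▸ hb2.ext.V hu1S1)
    have hu3u2 : u3 ≠ u2 := fun h => hu3 (h ▸ b3.hp)
    -- inclusions of regions
    have s1 : Tri p q u1 ⊆ Tri p q r := hi1.sub
    have s1' : Tri q r u1 ⊆ Tri p q r := by rw [Tri_rot p q r]; exact hi1.rot.sub
    have s2 : Tri u1 p u2 ⊆ Tri p q u1 := by
      rw [Tri_rot p q u1, Tri_rot q u1 p]; exact hi2.rot.rot.sub
    have s2' : Tri p q u2 ⊆ Tri p q u1 := hi2.sub
    have s3 : Tri u2 u1 u3 ⊆ Tri u1 p u2 := by
      rw [Tri_rot u1 p u2, Tri_rot p u2 u1]; exact hi3.rot.rot.sub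
    have s3' : Tri p u2 u3 ⊆ Tri u1 p u2 := by
      rw [Tri_rot u1 p u2]; exact hi3.rot.sub
    -- disjointness of regions
    have d1 : Disjoint (Tri p q u1) (Tri q r u1) := hi1.disj
    have d2 : Disjoint (Tri u1 p u2) (Tri p q u2) := hi2.rot.rot.disj
    have d3 : Disjoint (Tri u2 u1 u3) (Tri p u2 u3) := (hi3.rot.disj).symm
    -- the deep vertex
    obtain ⟨S4, hb4, x, hx, hhx⟩ := ih S3 u2 u1 u3 (c + 1) hb3.good c3 hu23 hu13 hh3
    -- fix `u3`
    have f3 : Emp S4 p u2 u3 := hb4.ext.emp c2 d3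
    obtain ⟨S5, hb5, hx3⟩ := fix hb4.good f3.rot.rot
    -- fix `u2`
    have f2a : Emp S3 p q u2 := hb3.ext.emp b1 d2
    have f2b : Emp S4 p q u2 := hb4.ext.emp f2a (d2.mono_left s3)
    have f2 : Emp S5 p q u2 := hb5.ext.emp f2b (d2.mono_left (by
      rw [Tri_rot u3 p u2]; exact s3'))
    obtain ⟨S6, hb6, hx2⟩ := fix hb5.good f2.rot.rot
    -- fix `u1`
    have g1 : Emp S2 q r u1 := hb2.ext.emp a2 d1
    have g2 : Emp S3 q r u1 := hb3.ext.emp g1 (d1.mono_left s2)
    have g3 : Emp S4 q r u1 := hb4.ext.emp g2 (d1.mono_left (s3.trans s2))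
    have g4 : Emp S5 q r u1 := hb5.ext.emp g3 (d1.mono_left (by
      rw [Tri_rot u3 p u2]; exact s3'.trans s2))
    have g5 : Emp S6 q r u1 := hb6.ext.emp g4 (d1.mono_left (by
      rw [Tri_rot u2 p q]; exact s2'))
    obtain ⟨S7, hb7, hx1⟩ := fix hb6.good g5.rot.rot
    -- all together
    have hb : Bld S S7 (Tri p q r) {p, q, r, u1, u2, u3} := by
      refine (((((hb1.mono (Set.Subset.refl _) ?_).trans (hb2.mono s1 ?_)).trans
        (hb3.mono (s2.trans s1) ?_)).trans (hb4.mono (s3.trans (s2.trans s1)) ?_)).trans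
        ((hb5.mono ?_ ?_).trans (hb6.mono ?_ ?_))).trans (hb7.mono ?_ ?_)
      · intro y hy; simp only [Set.mem_insert_iff, Set.mem_singleton_iff] at hy ⊢; tauto
      · intro y hy; simp only [Set.mem_insert_iff, Set.mem_singleton_iff] at hy ⊢; tauto
      · intro y hy; simp only [Set.mem_insert_iff, Set.mem_singleton_iff] at hy ⊢; tauto
      · intro y hy; simp only [Set.mem_insert_iff, Set.mem_singleton_iff] at hy ⊢; tauto
      · rw [Tri_rot u3 p u2]; exact s3'.trans (s2.trans s1)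
      · intro y hy; simp only [Set.mem_insert_iff, Set.mem_singleton_iff] at hy ⊢; tauto
      · rw [Tri_rot u2 p q]; exact s2'.trans s1
      · intro y hy; simp only [Set.mem_insert_iff, Set.mem_singleton_iff] at hy ⊢; tauto
      · rw [Tri_rot u1 q r]; exact s1'
      · intro y hy; simp only [Set.mem_insert_iff, Set.mem_singleton_iff] at hy ⊢; tauto
    have hu1V4 : u1 ∈ S4.V := hb4.ext.V (hb3.ext.V (hb2.ext.V hu1S1))
    have hu2V4 : u2 ∈ S4.V := hb4.ext.V (hb3.ext.V b3.hp)
    have hu3V4 : u3 ∈ S4.V := hb4.ext.V c3.hp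
    have k3 : ex S7 u3 = ex S5 u3 := by
      rw [(hb7.same u3 (hb6.ext.V (hb5.ext.V hu3V4)) (by
        simp only [Set.mem_insert_iff, Set.mem_singleton_iff, not_or]
        exact ⟨hu3u1, hu3q, hu3r⟩)).ex,
        (hb6.same u3 (hb5.ext.V hu3V4) (by
        simp only [Set.mem_insert_iff, Set.mem_singleton_iff, not_or]
        exact ⟨hu3u2, hu3p, hu3q⟩)).ex]
    have k2 : ex S7 u2 = ex S6 u2 := by
      rw [(hb7.same u2 (hb6.ext.V (hb5.ext.V hu2V4)) (by
        simp only [Set.mem_insert_iff, Set.mem_singleton_iff, not_or]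
        exact ⟨hu2u1, hu2q, hu2r⟩)).ex]
    refine ⟨S7, ⟨hb.good, hb.ext, ?_, ?_⟩, x, ?_, ?_⟩
    · intro v hv hx'
      apply hb.same v hv
      simp only [Set.mem_insert_iff, Set.mem_singleton_iff, not_or] at hx' ⊢
      refine ⟨hx'.1, hx'.2.1, hx'.2.2, ?_, ?_, ?_⟩
      · exact fun h => hu1 (h ▸ hv)
      · exact fun h => hu2 (h ▸ hb1.ext.V hv)
      · exact fun h => hu3 (h ▸ hb2.ext.V (hb1.ext.V hv))
    · intro v hv hv' hx'
      by_cases e1 : v = u1
      · rw [e1]; exact hx1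
      by_cases e2 : v = u2
      · rw [e2, k2]; exact hx2
      by_cases e3 : v = u3
      · rw [e3, k3]; exact hx3
      apply hb.new v hv hv'
      simp only [Set.mem_insert_iff, Set.mem_singleton_iff, not_or] at hx' ⊢
      exact ⟨hx'.1, hx'.2.1, hx'.2.2, e1, e2, e3⟩
    · exact hb7.ext.V (hb6.ext.V (hb5.ext.V hx))
    · rw [hb7.ext.h x (hb6.ext.V (hb5.ext.V hx)), hb6.ext.h x (hb5.ext.V hx), hb5.ext.h x hx, hhx]
      push_cast; ring

/-- A chain of common neighbours of the corners `b`, `a`. -/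
theorem chain (a b w0 : P) : ∀ (M : ℕ) (S : St), Good S → Emp S b a w0 → S.h b = 0 → S.h a = 0 →
    S.h w0 = 0 → ∃ (S' : St) (w : ℕ → P), Good S' ∧ Ext S S' (Tri b a w0) ∧ S'.A = S.A ∧
      w 0 = w0 ∧ (∀ i, 1 ≤ i → i ≤ M → w i ∉ S.V) ∧
      (∀ i j, i ≤ M → j ≤ M → w i = w j → i = j) ∧
      (∀ v, v ∈ S'.V ↔ v ∈ S.V ∨ ∃ i, 1 ≤ i ∧ i ≤ M ∧ w i = v) ∧
      (∀ i, 1 ≤ i → i ≤ M → S'.G.Adj (w i) a ∧ S'.G.Adj (w i) b ∧ S'.G.Adj (w (i - 1)) (w i)) ∧
      Emp S' b a (w M) ∧ S'.h (w M) = 0 := by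
  intro M
  induction M with
  | zero =>
    intro S hg he _ _ h0
    refine ⟨S, fun _ => w0, hg, Ext.refl _ _, rfl, rfl, fun i h h' => by omega,
      fun i j hi hj _ => by omega, fun v => ⟨Or.inl, ?_⟩, fun i h h' => by omega, he, h0⟩
    rintro (h | ⟨i, h1, h2, _⟩)
    · exact h
    · omega
  | succ M ih =>
    intro S hg he hb ha h0
    obtain ⟨S1, w, g1, e1, A1, q0, q1, q2, q3, q4, q5, q6⟩ := ih S hg he hb ha h0
    have hb1 : S1.h b = 0 := by rw [e1.h b he.hs, hb]
    have ha1 : S1.h a = 0 := by rw [e1.h a he.ht, ha]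
    obtain ⟨S2, r, hi, hbl, hA, hrV, hhr, m1, m2, m3⟩ := bld0 g1 q5 0
      (by rw [hb1]; simp) (by rw [ha1]; simp) (by rw [q6]; simp)
    have hwV : ∀ i, i ≤ M → w i ∈ S1.V := by
      intro i hi'
      rw [q3]
      rcases Nat.eq_zero_or_pos i with rfl | h
      · rw [q0]; exact Or.inl he.hp
      · exact Or.inr ⟨i, h, hi', rfl⟩
    have hwr : ∀ i, i ≤ M → w i ≠ r := fun i hi' h => hrV (h ▸ hwV i hi')
    have hsub : Tri b a (w M) ⊆ Tri b a w0 := by
      rcases Nat.eq_zero_or_pos M with h | h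
      · rw [h, q0]
      · -- the open triangle has its corner in the region
        intro x hx
        have hmem : w M ∈ Tri b a w0 := e1.N _ (hwV M le_rfl) (q1 M h le_rfl)
        obtain ⟨x1, x2, x3⟩ := hx
        obtain ⟨y1, y2, y3⟩ := hmem
        have hpos := he.pos
        have hpos' := q5.pos
        -- barycentric coordinates
        have i1 : D b a (w M) * D a w0 x = D a (w M) x * D b a w0 + D b a x * D a w0 (w M) := by
          unfold D; ring
        have i2 : D b a (w M) * D w0 b x = D (w M) b x * D b a w0 + D b a x * D w0 b (w M) := by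
          unfold D; ring
        refine ⟨x1, ?_, ?_⟩
        · have h1 : 0 < D b a (w M) * D a w0 x := by
            rw [i1]
            have := mul_pos x2 hpos
            have := mul_pos x1 y2
            linarith
          exact pos_of_mul_pos_of_pos_left' hpos' h1
        · have h1 : 0 < D b a (w M) * D w0 b x := by
            rw [i2]
            have := mul_pos x3 hpos
            have := mul_pos x1 y3
            linarith
          exact pos_of_mul_pos_of_pos_left' hpos' h1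
    refine ⟨S2, Function.update w (M + 1) r, hbl.good, e1.trans (hbl.ext.mono hsub), by rw [hA, A1],
      ?_, ?_, ?_, ?_, ?_, ?_, ?_⟩
    · rw [Function.update_of_ne (by omega), q0]
    · intro i h1 h2
      by_cases h3 : i = M + 1
      · rw [h3, Function.update_self]
        exact fun h => hrV (e1.V h)
      · rw [Function.update_of_ne h3]
        exact q1 i h1 (by omega)
    · intro i j hi' hj' hij
      by_cases h3 : i = M + 1 <;> by_cases h4 : j = M + 1
      · rw [h3, h4]
      · rw [h3, Function.update_self, Function.update_of_ne h4] at hij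
        exact absurd hij.symm (hwr j (by omega))
      · rw [h4, Function.update_self, Function.update_of_ne h3] at hij
        exact absurd hij (hwr i (by omega))
      · rw [Function.update_of_ne h3, Function.update_of_ne h4] at hij
        exact q2 i j (by omega) (by omega) hij
    · intro v
      rw [hi.hV, Finset.mem_insert, q3]
      constructor
      · rintro (rfl | h | ⟨i, h1, h2, h3⟩)
        · exact Or.inr ⟨M + 1, by omega, le_rfl, by rw [Function.update_self]⟩
        · exact Or.inl h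
        · exact Or.inr ⟨i, h1, by omega, by rw [Function.update_of_ne (by omega), h3]⟩
      · rintro (h | ⟨i, h1, h2, h3⟩)
        · exact Or.inr (Or.inl h)
        · by_cases h4 : i = M + 1
          · rw [h4, Function.update_self] at h3
            exact Or.inl h3.symm
          · rw [Function.update_of_ne h4] at h3
            exact Or.inr (Or.inr ⟨i, h1, by omega, h3⟩)
    · intro i h1 h2
      by_cases h3 : i = M + 1
      · rw [h3, Function.update_self]
        rw [Function.update_of_ne (by omega : M + 1 - 1 ≠ M + 1)]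
        refine ⟨?_, ?_, ?_⟩
        · rw [hi.hG]; exact Or.inr (Or.inr ⟨rfl, Or.inr (Or.inl rfl)⟩)
        · rw [hi.hG]; exact Or.inr (Or.inr ⟨rfl, Or.inl rfl⟩)
        · rw [hi.hG]; exact Or.inr (Or.inl ⟨rfl, Or.inr (Or.inr rfl)⟩)
      · rw [Function.update_of_ne h3, Function.update_of_ne (by omega : i - 1 ≠ M + 1)]
        have := q4 i h1 (by omega)
        exact ⟨hbl.ext.G this.1, hbl.ext.G this.2.1, hbl.ext.G this.2.2⟩
    · rw [Function.update_self]; exact m1
    · rw [Function.update_self]; exact hhr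
where
  pos_of_mul_pos_of_pos_left' {x y : ℝ} (hx : 0 < x) (h : 0 < x * y) : 0 < y := by
    by_contra hy
    push Not at hy
    nlinarith

end Pool.Agent.N418.PPD
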