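import Mathlib
import Pool.Agent.R127.PathPairDefs

set_option autoImplicit false

/-!
Planar graphs, given by straight-line drawings.
-/

namespace Pool.Agent.N418.PPD

/-- `G` is planar: it has a crossing-free straight-line drawing in the plane. The vertices go to
pairwise distinct points, no vertex lies on the open segment of an edge, and the open segments of
two different edges are disjoint. -/
def IsPlanar {V : Type} (G : SimpleGraph V) : Prop :=
  ∃ pos : V → ℝ × ℝ, Function.Injective pos ∧
    (∀ u v w : V, G.Adj u v → pos w ∉ openSegment ℝ (pos u) (pos v)) ∧
    (∀ u v u' v' : V, G.Adj u v → G.Adj u' v' → s(u, v) ≠ s(u', v') →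
      Disjoint (openSegment ℝ (pos u) (pos v)) (openSegment ℝ (pos u') (pos v')))

end Pool.Agent.N418.PPD
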