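import Mathlib
import Pool.Agent.R127.PathPairDefs
import Pool.Agent.N418.PPD.Flow

set_option autoImplicit false

/-!
Path-pairability from a partial orientation with two hubs and many extra common neighbours of the
hubs.
-/

namespace Pool.Agent.N418.PPD

open Finset Pool.Agent.R127.PathPair

section

variable {V : Type} [Fintype V] [DecidableEq V]

/-- The assumptions. -/
structure Setup (G : SimpleGraph V) (a b : V) (A : Finset (V × V)) (W : Finset V) (L : ℕ)
    (y z : Fin (3 * L) → V) : Prop where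
  hab : a ≠ b
  has : ∀ u v, (u, v) ∈ A → (v, u) ∉ A
  hA : ∀ u v, (u, v) ∈ A → G.Adj u v ∧ u ∉ W ∧ v ∉ W
  hdeg : ∀ v, v ≠ a → v ≠ b → v ∉ W → ind A v + 1 ≤ outd A v
  haW : a ∉ W
  hbW : b ∉ W
  hWa : ∀ w ∈ W, G.Adj w a
  hWb : ∀ w ∈ W, G.Adj w b
  hy : Function.Injective y
  hz : Function.Injective z
  hyz : ∀ k l, y k ≠ z l
  hyW : ∀ k, y k ∈ W
  hzW : ∀ k, z k ∈ W
  hadj : ∀ k, G.Adj (y k) (z k)
  hL : Fintype.card {v : V // v ∉ W} ≤ L
  hne : 0 < L

variable {G : SimpleGraph V} {a b : V} {A : Finset (V × V)} {W : Finset V} {L : ℕ}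
  {y z : Fin (3 * L) → V}

/-- The edge-disjoint routes out of the vertices outside `W`. -/
theorem Setup.flow (S : Setup G a b A W L y z) : ∃ H : V → SimpleGraph V,
    (∀ o, H o ≤ G) ∧ (∀ o u v, (H o).Adj u v → u ∉ W ∧ v ∉ W) ∧
    (∀ o o' u v, (H o).Adj u v → (H o').Adj u v → o = o') ∧
    ∀ v, v ∉ W → (H v).Reachable v a ∨ (H v).Reachable v b := by
  classical
  let ι := {v : V // v ∉ W}
  obtain ⟨H, h1, h2, h3⟩ := Pool.Agent.N418.PPD.flow (ι := ι) a b A.card A rfl S.has
    (fun i => i.1) (by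
      intro v ha hb
      by_cases hv : v ∈ W
      · have e1 : ind A v = 0 := by
          unfold ind
          rw [Finset.card_eq_zero, Finset.filter_eq_empty_iff]
          rintro ⟨p, q⟩ hp rfl
          exact (S.hA _ _ hp).2.2 hv
        have e2 : cnt (fun i : ι => i.1) v = 0 := by
          unfold cnt
          apply Finset.sum_eq_zero
          intro i _
          rw [if_neg]
          rintro rfl
          exact i.2 hv
        omega
      · have e2 : cnt (fun i : ι => i.1) v = 1 := by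
          unfold cnt
          rw [Finset.sum_eq_single (⟨v, hv⟩ : ι)]
          · simp
          · intro i _ hi
            rw [if_neg]
            intro h
            exact hi (Subtype.ext h)
          · intro h; exact absurd (Finset.mem_univ _) h
        have := S.hdeg v ha hb hv
        omega)
  refine ⟨fun o => if h : o ∉ W then H ⟨o, h⟩ else ⊥, ?_, ?_, ?_, ?_⟩
  · intro o u v h
    by_cases ho : o ∉ W
    · simp only [ho, dif_pos, not_false_eq_true] at h
      rcases h1 _ _ _ h with h | h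
      · exact (S.hA _ _ h).1
      · exact (S.hA _ _ h).1.symm
    · simp [ho] at h
  · intro o u v h
    by_cases ho : o ∉ W
    · simp only [ho, dif_pos, not_false_eq_true] at h
      rcases h1 _ _ _ h with h | h
      · exact (S.hA _ _ h).2
      · exact ⟨(S.hA _ _ h).2.2, (S.hA _ _ h).2.1⟩
    · simp [ho] at h
  · intro o o' u v h h'
    by_cases ho : o ∉ W
    · by_cases ho' : o' ∉ W
      · simp only [ho, ho', dif_pos, not_false_eq_true] at h h'
        have := h2 _ _ _ _ h h'
        exact congrArg Subtype.val this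
      · simp [ho'] at h'
    · simp [ho] at h
  · intro v hv
    have := h3 ⟨v, hv⟩
    simpa [hv] using this

theorem Setup.connected (S : Setup G a b A W L y z) : G.Connected := by
  obtain ⟨H, h1, _, _, h4⟩ := S.flow
  have hk : 0 < 3 * L := by have := S.hne; omega
  have hba : G.Reachable b a :=
    (S.hWb _ (S.hyW ⟨0, hk⟩)).symm.reachable.trans (S.hWa _ (S.hyW ⟨0, hk⟩)).reachable
  have key : ∀ v, G.Reachable v a := by
    intro v
    by_cases hv : v ∈ W
    · exact (S.hWa v hv).reachable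
    · rcases h4 v hv with h | h
      · exact h.mono (h1 v)
      · exact (h.mono (h1 v)).trans hba
  have : Nonempty V := ⟨a⟩
  exact SimpleGraph.Connected.mk (fun u v => (key u).trans (key v).symm)

theorem Setup.pathPairable (S : Setup G a b A W L y z) : PathPairable G := by
  classical
  apply pathPairable_of
  intro f hff hfn
  have hfi : Function.Injective f := fun x x' h => by rw [← hff x, h, hff]
  obtain ⟨H, hH1, hH2, hH3, hH4⟩ := S.flow
  -- choice of the link blocks
  obtain ⟨K, -, hK2, hK3⟩ := select (fun k l : Fin (3 * L) => f (y k) = z l)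
    (fun k l l' h h' => S.hz (h.symm.trans h'))
    (fun k k' l h h' => S.hy (hfi (h.trans h'.symm))) L univ (by simp)
  have hcard : Fintype.card {v : V // v ∉ W} ≤ Fintype.card K := by
    rw [Fintype.card_coe, hK2]; exact S.hL
  obtain ⟨κ⟩ := Function.Embedding.nonempty_of_card_le hcard
  -- owners of the edges at the hubs
  let own (w : V) : V := if h : ∃ v : {v : V // v ∉ W}, y (κ v).1 = w then h.choose.1 else w
  have own_y : ∀ v : {v : V // v ∉ W}, own (y (κ v).1) = v.1 := by
    intro v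
    have h : ∃ v' : {v : V // v ∉ W}, y (κ v').1 = y (κ v).1 := ⟨v, rfl⟩
    simp only [own, h, dif_pos]
    have := h.choose_spec
    rw [κ.injective (Subtype.ext (S.hy this))]
  let oa (w : V) : V := own w
  let ob (w : V) : V := if ∃ v : {v : V // v ∉ W}, y (κ v).1 = w then own w else
    if h : ∃ v : {v : V // v ∉ W}, z (κ v).1 = w then y (κ h.choose).1 else w
  have own_z : ∀ k, own (z k) = z k := by
    intro k
    have h : ¬ ∃ v : {v : V // v ∉ W}, y (κ v).1 = z k := by
      rintro ⟨v, hv⟩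
      exact S.hyz _ _ hv
    simp only [own, h, dif_neg, not_false_eq_true]
  have ob_y : ∀ v : {v : V // v ∉ W}, ob (y (κ v).1) = v.1 := by
    intro v
    have h : ∃ v' : {v : V // v ∉ W}, y (κ v').1 = y (κ v).1 := ⟨v, rfl⟩
    simp only [ob, h, if_true]
    exact own_y v
  have ob_z : ∀ v : {v : V // v ∉ W}, ob (z (κ v).1) = y (κ v).1 := by
    intro v
    have h : ¬ ∃ v' : {v : V // v ∉ W}, y (κ v').1 = z (κ v).1 := by
      rintro ⟨v', hv⟩
      exact S.hyz _ _ hv
    have h' : ∃ v' : {v : V // v ∉ W}, z (κ v').1 = z (κ v).1 := ⟨v, rfl⟩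
    simp only [ob, h, h', if_false, dif_pos]
    have := h'.choose_spec
    rw [κ.injective (Subtype.ext (S.hz this))]
  have oa_n : ∀ w, (¬ ∃ v : {v : V // v ∉ W}, y (κ v).1 = w) → oa w = w := by
    intro w h
    simp only [oa, own, h, dif_neg, not_false_eq_true]
  have ob_n : ∀ w, (¬ ∃ v : {v : V // v ∉ W}, y (κ v).1 = w) →
      (¬ ∃ v : {v : V // v ∉ W}, z (κ v).1 = w) → ob w = w := by
    intro w h h'
    simp only [ob, h, h', if_false, dif_neg, not_false_eq_true]
  -- the subgraphs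
  let E (o : V) : Set (Sym2 V) :=
    {e | (∃ w ∈ W, e = s(w, a) ∧ oa w = o) ∨ (∃ w ∈ W, e = s(w, b) ∧ ob w = o) ∨
      (∃ v : {v : V // v ∉ W}, e = s(y (κ v).1, z (κ v).1) ∧ y (κ v).1 = o) ∨ e ∈ (H o).edgeSet}
  have hadj : ∀ o u v, (SimpleGraph.fromEdgeSet (E o)).Adj u v ↔ s(u, v) ∈ E o ∧ u ≠ v := by
    intro o u v
    rw [SimpleGraph.fromEdgeSet_adj]
  have hHle : ∀ o, H o ≤ SimpleGraph.fromEdgeSet (E o) := by
    intro o u v h
    rw [hadj]
    exact ⟨Or.inr (Or.inr (Or.inr h)), h.ne⟩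
  have ea : ∀ o w, w ∈ W → oa w = o → (SimpleGraph.fromEdgeSet (E o)).Adj w a := by
    intro o w hw ho
    rw [hadj]
    exact ⟨Or.inl ⟨w, hw, rfl, ho⟩, fun h => S.haW (h ▸ hw)⟩
  have eb : ∀ o w, w ∈ W → ob w = o → (SimpleGraph.fromEdgeSet (E o)).Adj w b := by
    intro o w hw ho
    rw [hadj]
    exact ⟨Or.inr (Or.inl ⟨w, hw, rfl, ho⟩), fun h => S.hbW (h ▸ hw)⟩
  have ec : ∀ v : {v : V // v ∉ W},
      (SimpleGraph.fromEdgeSet (E (y (κ v).1))).Adj (y (κ v).1) (z (κ v).1) := by
    intro v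
    rw [hadj]
    exact ⟨Or.inr (Or.inr (Or.inl ⟨v, rfl, rfl⟩)), S.hyz _ _⟩
  refine ⟨fun o => SimpleGraph.fromEdgeSet (E o), ?_, ?_, ?_⟩
  · intro o u v h
    rw [hadj] at h
    obtain ⟨h, hne⟩ := h
    rcases h with ⟨w, hw, he, -⟩ | ⟨w, hw, he, -⟩ | ⟨v', he, -⟩ | h
    · have := S.hWa w hw
      rw [← SimpleGraph.mem_edgeSet] at this ⊢
      rw [he]; exact this
    · have := S.hWb w hw
      rw [← SimpleGraph.mem_edgeSet] at this ⊢
      rw [he]; exact this
    · have := S.hadj (κ v').1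
      rw [← SimpleGraph.mem_edgeSet] at this ⊢
      rw [he]; exact this
    · exact hH1 o h
  · intro o o' u v h h'
    rw [hadj] at h h'
    obtain ⟨h, hne⟩ := h
    obtain ⟨h', -⟩ := h'
    have hW : ∀ o, s(u, v) ∈ (H o).edgeSet → ∀ w ∈ W, w ∉ s(u, v) := by
      intro o ho w hw hmem
      rw [SimpleGraph.mem_edgeSet] at ho
      have := hH2 _ _ _ ho
      rw [Sym2.mem_iff] at hmem
      rcases hmem with rfl | rfl
      · exact this.1 hw
      · exact this.2 hw
    have hwa : ∀ w ∈ W, w ≠ a := fun w hw h => S.haW (h ▸ hw)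
    have hwb : ∀ w ∈ W, w ≠ b := fun w hw h => S.hbW (h ▸ hw)
    have hya : ∀ k, a ≠ y k := fun k h => S.haW (h ▸ S.hyW k)
    have hza : ∀ k, a ≠ z k := fun k h => S.haW (h ▸ S.hzW k)
    have hyb : ∀ k, b ≠ y k := fun k h => S.hbW (h ▸ S.hyW k)
    have hzb : ∀ k, b ≠ z k := fun k h => S.hbW (h ▸ S.hzW k)
    rcases h with ⟨w, hw, he, ho⟩ | ⟨w, hw, he, ho⟩ | ⟨v1, he, ho⟩ | h
    · rcases h' with ⟨w', hw', he', ho'⟩ | ⟨w', hw', he', ho'⟩ | ⟨v2, he', ho'⟩ | h'
      · rw [he, Sym2.eq_iff] at he'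
        rcases he' with ⟨rfl, _⟩ | ⟨h1, _⟩
        · exact ho.symm.trans ho'
        · exact absurd h1 (hwa w hw)
      · rw [he, Sym2.eq_iff] at he'
        rcases he' with ⟨_, h1⟩ | ⟨h1, _⟩
        · exact absurd h1 S.hab
        · exact absurd h1 (hwb w hw)
      · rw [he, Sym2.eq_iff] at he'
        rcases he' with ⟨_, h1⟩ | ⟨_, h1⟩
        · exact absurd h1 (hza _)
        · exact absurd h1 (hya _)
      · exact absurd (by rw [he]; simp) (hW o' h' w hw)
    · rcases h' with ⟨w', hw', he', ho'⟩ | ⟨w', hw', he', ho'⟩ | ⟨v2, he', ho'⟩ | h'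
      · rw [he, Sym2.eq_iff] at he'
        rcases he' with ⟨_, h1⟩ | ⟨h1, _⟩
        · exact absurd h1 S.hab.symm
        · exact absurd h1 (hwa w hw)
      · rw [he, Sym2.eq_iff] at he'
        rcases he' with ⟨rfl, _⟩ | ⟨h1, _⟩
        · exact ho.symm.trans ho'
        · exact absurd h1 (hwb w hw)
      · rw [he, Sym2.eq_iff] at he'
        rcases he' with ⟨_, h1⟩ | ⟨_, h1⟩
        · exact absurd h1 (hzb _)
        · exact absurd h1 (hyb _)
      · exact absurd (by rw [he]; simp) (hW o' h' w hw)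
    · rcases h' with ⟨w', hw', he', ho'⟩ | ⟨w', hw', he', ho'⟩ | ⟨v2, he', ho'⟩ | h'
      · rw [he, Sym2.eq_iff] at he'
        rcases he' with ⟨_, h1⟩ | ⟨h1, _⟩
        · exact absurd h1.symm (hza _)
        · exact absurd h1.symm (hya _)
      · rw [he, Sym2.eq_iff] at he'
        rcases he' with ⟨_, h1⟩ | ⟨h1, _⟩
        · exact absurd h1.symm (hzb _)
        · exact absurd h1.symm (hyb _)
      · rw [he, Sym2.eq_iff] at he'
        rcases he' with ⟨h1, _⟩ | ⟨h1, _⟩
        · rw [← ho, ← ho', h1]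
        · exact absurd h1 (S.hyz _ _)
      · exact absurd (by rw [he]; simp) (hW o' h' _ (S.hyW (κ v1).1))
    · rcases h' with ⟨w', hw', he', ho'⟩ | ⟨w', hw', he', ho'⟩ | ⟨v2, he', ho'⟩ | h'
      · exact absurd (by rw [he']; simp) (hW o h w' hw')
      · exact absurd (by rw [he']; simp) (hW o h w' hw')
      · exact absurd (by rw [he']; simp) (hW o h _ (S.hyW (κ v2).1))
      · exact hH3 _ _ _ _ h h'
  · -- reachability
    let R (v m : V) : Prop := (SimpleGraph.fromEdgeSet (E v)).Reachable v m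
    -- vertices outside `W` reach both hubs
    have r1 : ∀ v, v ∉ W → R v a ∧ R v b := by
      intro v hv
      have h1 : (SimpleGraph.fromEdgeSet (E v)).Reachable a b :=
        (ea v _ (S.hyW (κ ⟨v, hv⟩).1) (own_y ⟨v, hv⟩)).symm.reachable.trans
          (eb v _ (S.hyW (κ ⟨v, hv⟩).1) (ob_y ⟨v, hv⟩)).reachable
      rcases hH4 v hv with h | h
      · have h2 := h.mono (hHle v)
        exact ⟨h2, h2.trans h1⟩
      · have h2 := h.mono (hHle v)
        exact ⟨h2.trans h1.symm, h2⟩
    have r2 : ∀ v : {v : V // v ∉ W}, R (y (κ v).1) (z (κ v).1) ∧ R (y (κ v).1) b := by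
      intro v
      refine ⟨(ec v).reachable, (ec v).reachable.trans (eb _ _ (S.hzW _) (ob_z v)).reachable⟩
    have r3 : ∀ v : {v : V // v ∉ W}, R (z (κ v).1) a := by
      intro v
      exact (ea _ _ (S.hzW _) (own_z _)).reachable
    have r4 : ∀ w, w ∈ W → (¬ ∃ v : {v : V // v ∉ W}, y (κ v).1 = w) →
      (¬ ∃ v : {v : V // v ∉ W}, z (κ v).1 = w) → R w a ∧ R w b := by
      intro w hw h h'
      exact ⟨(ea _ _ hw (oa_n w h)).reachable, (eb _ _ hw (ob_n w h h')).reachable⟩
    -- every vertex reaches `b`, unless it is some `z`; every vertex reaches `a`, unless some `y`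
    have rb : ∀ v, (¬ ∃ v' : {v : V // v ∉ W}, z (κ v').1 = v) → R v b := by
      intro v hz
      by_cases hv : v ∈ W
      · by_cases hy : ∃ v' : {v : V // v ∉ W}, y (κ v').1 = v
        · obtain ⟨v', rfl⟩ := hy
          exact (r2 v').2
        · exact (r4 v hv hy hz).2
      · exact (r1 v hv).2
    have ra : ∀ v, (¬ ∃ v' : {v : V // v ∉ W}, y (κ v').1 = v) → R v a := by
      intro v hy
      by_cases hv : v ∈ W
      · by_cases hz : ∃ v' : {v : V // v ∉ W}, z (κ v').1 = v
        · obtain ⟨v', rfl⟩ := hz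
          exact r3 v'
        · exact (r4 v hv hy hz).1
      · exact (r1 v hv).1
    have hconf : ∀ v v' : {v : V // v ∉ W}, f (y (κ v).1) = z (κ v').1 → (κ v).1 = (κ v').1 :=
      fun v v' h => hK3 _ (κ v).2 _ (κ v').2 h
    intro v
    by_cases hy : ∃ v' : {v : V // v ∉ W}, y (κ v').1 = v
    · obtain ⟨v', rfl⟩ := hy
      by_cases hz : ∃ v'' : {v : V // v ∉ W}, z (κ v'').1 = f (y (κ v').1)
      · obtain ⟨v'', h⟩ := hz
        have h1 := hconf v' v'' h.symm
        refine ⟨z (κ v').1, (r2 v').1, ?_⟩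
        rw [← h, ← h1]
      · exact ⟨b, (r2 v').2, rb _ hz⟩
    · by_cases hz : ∃ v' : {v : V // v ∉ W}, z (κ v').1 = v
      · obtain ⟨v', rfl⟩ := hz
        by_cases hy' : ∃ v'' : {v : V // v ∉ W}, y (κ v'').1 = f (z (κ v').1)
        · obtain ⟨v'', h⟩ := hy'
          have h0 : f (y (κ v'').1) = z (κ v').1 := by rw [h, hff]
          have h1 := hconf v'' v' h0
          refine ⟨z (κ v').1, SimpleGraph.Reachable.refl _, ?_⟩
          rw [← h]
          have := (r2 v'').1
          rw [h1] at this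
          rw [h1]
          exact this
        · exact ⟨a, r3 v', ra _ hy'⟩
      · by_cases hy' : ∃ v'' : {v : V // v ∉ W}, y (κ v'').1 = f v
        · obtain ⟨v'', h⟩ := hy'
          refine ⟨b, rb v hz, ?_⟩
          rw [← h]
          exact (r2 v'').2
        · exact ⟨a, ra v hy, ra _ hy'⟩

end

end Pool.Agent.N418.PPD
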