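import Mathlib
import Pool.Agent.N418.PPD.Defs
import Pool.Agent.N418.PPD.Pair
import Pool.Agent.N418.PPD.Build

set_option autoImplicit false

/-!
Planar path-pairable graphs of large diameter.
-/

namespace Pool.Agent.N418.PPD

open Finset Pool.Agent.R127.PathPair

/-- first hub -/
def pa : P := (0, 0)
/-- second hub -/
def pb : P := (3, 0)
/-- upper corner -/
def pc : P := (0, 3)
/-- lower corner -/
def pw : P := (0, -3)

/-- the initial state -/
noncomputable def S0 : St where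
  V := {pa, pb, pc, pw}
  G := SimpleGraph.fromRel (fun u v => u = pw ∧ (v = pa ∨ v = pb))
  A := ∅
  h := fun _ => 0

theorem seg_pa {x : P} (hx : x ∈ openSegment ℝ pw pa) : x.1 = 0 ∧ -3 < x.2 ∧ x.2 < 0 := by
  obtain ⟨α, β, hα, hβ, hαβ, rfl⟩ := hx
  simp only [pw, pa, Prod.fst_add, Prod.snd_add, Prod.smul_fst, Prod.smul_snd, smul_eq_mul]
  refine ⟨by ring, by nlinarith, by nlinarith⟩

theorem seg_pb {x : P} (hx : x ∈ openSegment ℝ pw pb) : 0 < x.1 ∧ x.2 = x.1 - 3 ∧ x.2 < 0 := by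
  obtain ⟨α, β, hα, hβ, hαβ, rfl⟩ := hx
  have : α = 1 - β := by linarith
  subst this
  simp only [pw, pb, Prod.fst_add, Prod.snd_add, Prod.smul_fst, Prod.smul_snd, smul_eq_mul]
  refine ⟨by nlinarith, by ring, by nlinarith⟩

theorem S0_adj {u v : P} (h : S0.G.Adj u v) :
    (s(u, v) = s(pw, pa) ∧ openSegment ℝ u v = openSegment ℝ pw pa) ∨
    (s(u, v) = s(pw, pb) ∧ openSegment ℝ u v = openSegment ℝ pw pb) := by
  have h' : (SimpleGraph.fromRel (fun u v : P => u = pw ∧ (v = pa ∨ v = pb))).Adj u v := h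
  rw [SimpleGraph.fromRel_adj] at h'
  rcases h' with ⟨_, ⟨rfl, rfl | rfl⟩ | ⟨rfl, rfl | rfl⟩⟩
  · exact Or.inl ⟨rfl, rfl⟩
  · exact Or.inr ⟨rfl, rfl⟩
  · exact Or.inl ⟨Sym2.eq_swap, openSegment_symm _ _ _⟩
  · exact Or.inr ⟨Sym2.eq_swap, openSegment_symm _ _ _⟩

theorem S0_good : Good S0 := by
  refine ⟨?_, ?_, ?_, ?_, ?_⟩
  · intro u v h
    have h' : (SimpleGraph.fromRel (fun u v : P => u = pw ∧ (v = pa ∨ v = pb))).Adj u v := h
    rw [SimpleGraph.fromRel_adj] at h'
    show u ∈ ({pa, pb, pc, pw} : Finset P) ∧ v ∈ ({pa, pb, pc, pw} : Finset P)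
    simp only [Finset.mem_insert, Finset.mem_singleton]
    tauto
  · intro u v w h hw hmem
    have hw' : w ∈ ({pa, pb, pc, pw} : Finset P) := hw
    simp only [Finset.mem_insert, Finset.mem_singleton] at hw'
    rcases S0_adj h with ⟨_, h1⟩ | ⟨_, h1⟩
    · rw [h1] at hmem
      have := seg_pa hmem
      rcases hw' with rfl | rfl | rfl | rfl <;> norm_num [pa, pb, pc, pw] at this
    · rw [h1] at hmem
      have := seg_pb hmem
      rcases hw' with rfl | rfl | rfl | rfl <;> norm_num [pa, pb, pc, pw] at this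
  · intro u v u' v' h h' hne
    rcases S0_adj h with ⟨e1, h1⟩ | ⟨e1, h1⟩ <;> rcases S0_adj h' with ⟨e2, h2⟩ | ⟨e2, h2⟩
    · exact absurd (e1.trans e2.symm) hne
    · rw [h1, h2, Set.disjoint_left]
      intro x hx hx'
      have := (seg_pa hx).1
      have := (seg_pb hx').1
      linarith
    · rw [h1, h2, Set.disjoint_left]
      intro x hx hx'
      have := (seg_pb hx).1
      have := (seg_pa hx').1
      linarith
    · exact absurd (e1.trans e2.symm) hne
  · intro u v h
    have h' : (u, v) ∈ (∅ : Finset (P × P)) := h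
    simp at h'
  · intro u v _
    show |(0 : ℤ) - 0| ≤ 1
    norm_num

theorem S0_up : Emp S0 pa pb pc := by
  refine ⟨by simp [S0], by simp [S0], by simp [S0], by norm_num [D, pa, pb, pc], ?_, ?_, ?_, ?_, ?_⟩
  · intro w hw hmem
    have hw' : w ∈ ({pa, pb, pc, pw} : Finset P) := hw
    simp only [Finset.mem_insert, Finset.mem_singleton] at hw'
    obtain ⟨h1, h2, h3⟩ := hmem
    rcases hw' with rfl | rfl | rfl | rfl <;> simp only [D, pa, pb, pc, pw] at h1 h2 h3 <;>
      linarith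
  · intro u v h
    rw [Set.disjoint_left]
    intro x hx hx'
    obtain ⟨h1, h2, h3⟩ := hx'
    have hD : D pa pb x = 3 * x.2 := by simp only [D, pa, pb]; ring
    rcases S0_adj h with ⟨_, h4⟩ | ⟨_, h4⟩
    · rw [h4] at hx
      have := seg_pa hx
      linarith
    · rw [h4] at hx
      have := seg_pb hx
      linarith
  · show |(0 : ℤ) - 0| ≤ 1
    norm_num
  · show |(0 : ℤ) - 0| ≤ 1
    norm_num
  · show |(0 : ℤ) - 0| ≤ 1
    norm_num

theorem S0_down : Emp S0 pb pa pw := by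
  refine ⟨by simp [S0], by simp [S0], by simp [S0], by norm_num [D, pa, pb, pw], ?_, ?_, ?_, ?_, ?_⟩
  · intro w hw hmem
    have hw' : w ∈ ({pa, pb, pc, pw} : Finset P) := hw
    simp only [Finset.mem_insert, Finset.mem_singleton] at hw'
    obtain ⟨h1, h2, h3⟩ := hmem
    rcases hw' with rfl | rfl | rfl | rfl <;> simp only [D, pa, pb, pc, pw] at h1 h2 h3 <;>
      linarith
  · intro u v h
    rw [Set.disjoint_left]
    intro x hx hx'
    obtain ⟨h1, h2, h3⟩ := hx'
    rcases S0_adj h with ⟨_, h4⟩ | ⟨_, h4⟩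
    · rw [h4] at hx
      have := seg_pa hx
      simp only [D, pa, pw] at h2
      nlinarith
    · rw [h4] at hx
      have := seg_pb hx
      simp only [D, pb, pw] at h3
      nlinarith
  · show |(0 : ℤ) - 0| ≤ 1
    norm_num
  · show |(0 : ℤ) - 0| ≤ 1
    norm_num
  · show |(0 : ℤ) - 0| ≤ 1
    norm_num

theorem up_down : Disjoint (Tri pa pb pc) (Tri pb pa pw) := by
  rw [Set.disjoint_left]
  intro x hx hx'
  have h1 := hx.1
  have h2 := hx'.1
  rw [D_swap] at h2
  linarith

/-- The upper part. -/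
theorem upper (N : ℕ) : ∃ S : St, Good S ∧ Ext S0 S (Tri pa pb pc) ∧ Same S0 S pw ∧
    (∀ v ∈ S.V, v ≠ pa → v ≠ pb → v ≠ pw → 1 ≤ ex S v) ∧ ∃ x ∈ S.V, S.h x = N := by
  obtain ⟨S1, d, hi1, hb1, hA1, hd, hh1, a1, a2, a3⟩ := bld0 S0_good S0_up 0
    (by show |(0 : ℤ) - 0| ≤ 1; norm_num) (by show |(0 : ℤ) - 0| ≤ 1; norm_num)
    (by show |(0 : ℤ) - 0| ≤ 1; norm_num)
  have hb0 : S1.h pb = 0 := by rw [hb1.ext.h pb S0_up.ht]; rfl
  have hc0 : S1.h pc = 0 := by rw [hb1.ext.h pc S0_up.hp]; rfl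
  obtain ⟨S2, hb2, x, hx, hhx⟩ := deep N S1 pb pc d 0 hb1.good a2 hb0 hc0 hh1
  have hab : pa ≠ pb := ne_of_pos S0_up.pos
  have hbc : pb ≠ pc := ne_of_pos S0_up.rot.pos
  have hca : pc ≠ pa := ne_of_pos S0_up.rot.rot.pos
  have hda : d ≠ pa := fun h => hd (h ▸ S0_up.hs)
  have hdb : d ≠ pb := fun h => hd (h ▸ S0_up.ht)
  have hdc : d ≠ pc := fun h => hd (h ▸ S0_up.hp)
  -- disjointness of `a b d`, `b c d`, `c a d`
  have d1 : Disjoint (Tri pb pc d) (Tri pc pa d) := hi1.rot.disj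
  have d2 : Disjoint (Tri pb pc d) (Tri pa pb d) := hi1.disj.symm
  have d3 : Disjoint (Tri pc pa d) (Tri pa pb d) := hi1.rot.rot.disj
  -- fix `c` in the triangle `c a d`
  have f1 : Emp S2 pc pa d := hb2.ext.emp a3 d1
  obtain ⟨S3, hb3, hx3⟩ := fix hb2.good f1
  -- fix `d` in the triangle `d a b`
  have f2 : Emp S2 pa pb d := hb2.ext.emp a1 d2
  have f3 : Emp S3 pa pb d := hb3.ext.emp f2 d3
  obtain ⟨S4, hb4, hx4⟩ := fix hb3.good f3.rot.rot
  have s1 : Tri pa pb d ⊆ Tri pa pb pc := hi1.sub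
  have s2 : Tri pb pc d ⊆ Tri pa pb pc := by rw [Tri_rot pa pb pc]; exact hi1.rot.sub
  have s3 : Tri pc pa d ⊆ Tri pa pb pc := by
    rw [Tri_rot pa pb pc, Tri_rot pb pc pa]; exact hi1.rot.rot.sub
  have hb : Bld S0 S4 (Tri pa pb pc) {pa, pb, pc, d} := by
    refine ((hb1.mono (Set.Subset.refl _) ?_).trans (hb2.mono s2 ?_)).trans
      ((hb3.mono s3 ?_).trans (hb4.mono ?_ ?_))
    · intro y hy; simp only [Set.mem_insert_iff, Set.mem_singleton_iff] at hy ⊢; tauto
    · intro y hy; simp only [Set.mem_insert_iff, Set.mem_singleton_iff] at hy ⊢; tauto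
    · intro y hy; simp only [Set.mem_insert_iff, Set.mem_singleton_iff] at hy ⊢; tauto
    · rw [Tri_rot d pa pb]; exact s1
    · intro y hy; simp only [Set.mem_insert_iff, Set.mem_singleton_iff] at hy ⊢; tauto
  have hcw : pw ≠ pc := by
    intro h
    have := congrArg Prod.snd h
    norm_num [pw, pc] at this
  have haw : pw ≠ pa := by
    intro h
    have := congrArg Prod.snd h
    norm_num [pw, pa] at this
  have hbw : pw ≠ pb := by
    intro h
    have := congrArg Prod.snd h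
    norm_num [pw, pb] at this
  have hw0 : pw ∈ S0.V := by simp [S0]
  have hcV : pc ∈ S3.V := hb3.ext.V (hb2.ext.V (hb1.ext.V S0_up.hp))
  have k3 : ex S4 pc = ex S3 pc := by
    rw [(hb4.same pc hcV (by
      simp only [Set.mem_insert_iff, Set.mem_singleton_iff, not_or]
      exact ⟨hdc.symm, hca, hbc.symm⟩)).ex]
  refine ⟨S4, hb4.good, hb.ext, ?_, ?_, x, ?_, ?_⟩
  · apply hb.same pw hw0
    simp only [Set.mem_insert_iff, Set.mem_singleton_iff, not_or]
    exact ⟨haw, hbw, hcw, fun h => hd (h ▸ hw0)⟩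
  · intro v hv hva hvb hvw
    by_cases hvc : v = pc
    · rw [hvc, k3]; exact hx3
    by_cases hvd : v = d
    · rw [hvd]; exact hx4
    apply hb.new v hv
    · intro hv0
      have : v ∈ ({pa, pb, pc, pw} : Finset P) := hv0
      simp only [Finset.mem_insert, Finset.mem_singleton] at this
      tauto
    · simp only [Set.mem_insert_iff, Set.mem_singleton_iff, not_or]
      exact ⟨hva, hvb, hvc, hvd⟩
  · exact hb4.ext.V (hb3.ext.V hx)
  · rw [hb4.ext.h x (hb3.ext.V hx), hb3.ext.h x hx, hhx]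
    simp

/-- The number of arcs out of and into a vertex of the subtype. -/
theorem outd_sub (S : St) (hg : Good S) (v : {x // x ∈ S.V}) :
    outd (univ.filter (fun q : {x // x ∈ S.V} × {x // x ∈ S.V} => (q.1.1, q.2.1) ∈ S.A)) v =
      outd S.A v.1 := by
  unfold outd
  apply Finset.card_bij (fun q _ => ((q.1.1, q.2.1) : P × P))
  · rintro ⟨q1, q2⟩ hq
    simp only [Finset.mem_filter, Finset.mem_univ, true_and] at hq ⊢
    exact ⟨hq.1, congrArg Subtype.val hq.2⟩
  · rintro ⟨q1, q2⟩ _ ⟨q3, q4⟩ _ h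
    simp only [Prod.mk.injEq] at h
    exact Prod.ext (Subtype.ext h.1) (Subtype.ext h.2)
  · rintro ⟨x, y⟩ hxy
    simp only [Finset.mem_filter] at hxy
    have := hg.sup x y (hg.arc x y hxy.1).1
    refine ⟨(⟨x, this.1⟩, ⟨y, this.2⟩), ?_, rfl⟩
    simp only [Finset.mem_filter, Finset.mem_univ, true_and]
    exact ⟨hxy.1, Subtype.ext hxy.2⟩

theorem ind_sub (S : St) (hg : Good S) (v : {x // x ∈ S.V}) :
    ind (univ.filter (fun q : {x // x ∈ S.V} × {x // x ∈ S.V} => (q.1.1, q.2.1) ∈ S.A)) v =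
      ind S.A v.1 := by
  unfold ind
  apply Finset.card_bij (fun q _ => ((q.1.1, q.2.1) : P × P))
  · rintro ⟨q1, q2⟩ hq
    simp only [Finset.mem_filter, Finset.mem_univ, true_and] at hq ⊢
    exact ⟨hq.1, congrArg Subtype.val hq.2⟩
  · rintro ⟨q1, q2⟩ _ ⟨q3, q4⟩ _ h
    simp only [Prod.mk.injEq] at h
    exact Prod.ext (Subtype.ext h.1) (Subtype.ext h.2)
  · rintro ⟨x, y⟩ hxy
    simp only [Finset.mem_filter] at hxy
    have := hg.sup x y (hg.arc x y hxy.1).1
    refine ⟨(⟨x, this.1⟩, ⟨y, this.2⟩), ?_, rfl⟩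
    simp only [Finset.mem_filter, Finset.mem_univ, true_and]
    exact ⟨hxy.1, Subtype.ext hxy.2⟩

/-- Planar path-pairable graphs of large diameter. -/
theorem main (N : ℕ) : ∃ (V : Type) (_ : Fintype V) (G : SimpleGraph V),
    Even (Fintype.card V) ∧ IsPlanar G ∧ PathPairable G ∧ G.Connected ∧ N ≤ G.diam := by
  obtain ⟨S1, hg1, he1, hw1, hex1, x, hx, hhx⟩ := upper N
  set L := S1.V.card with hL
  have hemp : Emp S1 pb pa pw := he1.emp S0_down up_down
  have hb0 : S1.h pb = 0 := by rw [he1.h pb S0_up.ht]; rfl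
  have ha0 : S1.h pa = 0 := by rw [he1.h pa S0_up.hs]; rfl
  have hw0 : S1.h pw = 0 := by rw [he1.h pw S0_down.hp]; rfl
  set M := 6 * L + L % 2 with hM
  obtain ⟨S, w, hg, he, hA, q0, q1, q2, q3, q4, q5, q6⟩ := chain pa pb pw M S1 hg1 hemp hb0 ha0 hw0
  have haV1 : pa ∈ S1.V := he1.V S0_up.hs
  have hbV1 : pb ∈ S1.V := he1.V S0_up.ht
  have hwV1 : pw ∈ S1.V := he1.V S0_down.hp
  have hLpos : 0 < L := Finset.card_pos.2 ⟨pa, haV1⟩
  have haV : pa ∈ S.V := he.V haV1
  have hbV : pb ∈ S.V := he.V hbV1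
  have hab : pa ≠ pb := ne_of_pos S0_up.pos
  have haw : pw ≠ pa := by
    intro h
    have := congrArg Prod.snd h
    norm_num [pw, pa] at this
  have hbw : pw ≠ pb := by
    intro h
    have := congrArg Prod.snd h
    norm_num [pw, pb] at this
  have hwV : ∀ i, i ≤ M → w i ∈ S.V := by
    intro i hi
    rw [q3]
    rcases Nat.eq_zero_or_pos i with rfl | h
    · rw [q0]; exact Or.inl hwV1
    · exact Or.inr ⟨i, h, hi, rfl⟩
  have hwab : ∀ i, i ≤ M → w i ≠ pa ∧ w i ≠ pb := by
    intro i hi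
    rcases Nat.eq_zero_or_pos i with rfl | h
    · rw [q0]; exact ⟨haw, hbw⟩
    · exact ⟨fun h' => q1 i h hi (h' ▸ haV1), fun h' => q1 i h hi (h' ▸ hbV1)⟩
  have hw0adj : S.G.Adj pw pa ∧ S.G.Adj pw pb := by
    have h1 : S0.G.Adj pw pa := by
      show (SimpleGraph.fromRel (fun u v : P => u = pw ∧ (v = pa ∨ v = pb))).Adj pw pa
      rw [SimpleGraph.fromRel_adj]
      exact ⟨haw, Or.inl ⟨rfl, Or.inl rfl⟩⟩
    have h2 : S0.G.Adj pw pb := by
      show (SimpleGraph.fromRel (fun u v : P => u = pw ∧ (v = pa ∨ v = pb))).Adj pw pb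
      rw [SimpleGraph.fromRel_adj]
      exact ⟨hbw, Or.inl ⟨rfl, Or.inr rfl⟩⟩
    exact ⟨he.G (he1.G h1), he.G (he1.G h2)⟩
  have hwadj : ∀ i, i ≤ M → S.G.Adj (w i) pa ∧ S.G.Adj (w i) pb := by
    intro i hi
    rcases Nat.eq_zero_or_pos i with rfl | h
    · rw [q0]; exact hw0adj
    · exact ⟨(q4 i h hi).1, (q4 i h hi).2.1⟩
  classical
  let V := {x // x ∈ S.V}
  let G : SimpleGraph V := S.G.comap Subtype.val
  let a : V := ⟨pa, haV⟩
  let b : V := ⟨pb, hbV⟩
  let A : Finset (V × V) := univ.filter (fun q => (q.1.1, q.2.1) ∈ S.A)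
  let W : Finset V := univ.filter (fun v => ∃ i, i ≤ M ∧ w i = v.1)
  have hmemW : ∀ v : V, v ∈ W ↔ ∃ i, i ≤ M ∧ w i = v.1 := by
    intro v
    simp only [W, Finset.mem_filter, Finset.mem_univ, true_and]
  let y : Fin (3 * L) → V := fun k => ⟨w (2 * k.1), hwV _ (by have := k.2; omega)⟩
  let z : Fin (3 * L) → V := fun k => ⟨w (2 * k.1 + 1), hwV _ (by have := k.2; omega)⟩
  have hnotW : ∀ v : V, v ∉ W → v.1 ∈ S1.V ∧ v.1 ≠ pw := by
    intro v hv
    rw [hmemW] at hv
    push Not at hv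
    have h1 := v.2
    rw [q3] at h1
    refine ⟨?_, ?_⟩
    · rcases h1 with h1 | ⟨i, _, h2, h3⟩
      · exact h1
      · exact absurd h3 (hv i h2)
    · intro h
      exact hv 0 (Nat.zero_le _) (by rw [q0, h])
  have hcardV : Fintype.card V = L + M := by
    have h1 : S.V = S1.V ∪ (Finset.Icc 1 M).image w := by
      ext v
      rw [q3, Finset.mem_union, Finset.mem_image]
      simp only [Finset.mem_Icc]
      constructor
      · rintro (h | ⟨i, h1, h2, h3⟩)
        · exact Or.inl h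
        · exact Or.inr ⟨i, ⟨h1, h2⟩, h3⟩
      · rintro (h | ⟨i, ⟨h1, h2⟩, h3⟩)
        · exact Or.inl h
        · exact Or.inr ⟨i, h1, h2, h3⟩
    have h2 : Disjoint S1.V ((Finset.Icc 1 M).image w) := by
      rw [Finset.disjoint_left]
      intro v hv hv'
      rw [Finset.mem_image] at hv'
      obtain ⟨i, hi, rfl⟩ := hv'
      rw [Finset.mem_Icc] at hi
      exact q1 i hi.1 hi.2 hv
    have h3 : ((Finset.Icc 1 M).image w).card = M := by
      rw [Finset.card_image_of_injOn]
      · simp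
      · intro i hi j hj hij
        rw [Finset.mem_coe, Finset.mem_Icc] at hi hj
        exact q2 i j hi.2 hj.2 hij
    rw [Fintype.card_coe, h1, Finset.card_union_of_disjoint h2, h3]
  have hsetup : Setup G a b A W L y z := by
    refine ⟨?_, ?_, ?_, ?_, ?_, ?_, ?_, ?_, ?_, ?_, ?_, ?_, ?_, ?_, ?_, hLpos⟩
    · intro h; exact hab (congrArg Subtype.val h)
    · intro u v huv
      simp only [A, Finset.mem_filter, Finset.mem_univ, true_and] at huv ⊢
      exact (hg.arc _ _ huv).2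
    · intro u v huv
      simp only [A, Finset.mem_filter, Finset.mem_univ, true_and] at huv
      have h1 : (u.1, v.1) ∈ S1.A := by rw [← hA]; exact huv
      have h2 := hg1.sup _ _ (hg1.arc _ _ h1).1
      have h3 : ∀ v : V, v.1 ∈ S1.V → v.1 ≠ pw → v ∉ W := by
        intro v hv hvw hmem
        rw [hmemW] at hmem
        obtain ⟨i, hi, h4⟩ := hmem
        rcases Nat.eq_zero_or_pos i with rfl | h
        · rw [q0] at h4; exact hvw h4.symm
        · exact q1 i h hi (h4 ▸ hv)
      have h5 : u.1 ≠ pw := by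
        intro h
        rw [h] at h1
        have := (hw1 v.1).2.1 h1
        simp [S0] at this
      have h6 : v.1 ≠ pw := by
        intro h
        rw [h] at h1
        have := (hw1 u.1).1.1 h1
        simp [S0] at this
      exact ⟨(hg.arc _ _ huv).1, h3 u h2.1 h5, h3 v h2.2 h6⟩
    · intro v hva hvb hvW
      rw [outd_sub S hg, ind_sub S hg, hA]
      have h1 := hnotW v hvW
      have h2 := hex1 v.1 h1.1 (fun h => hva (Subtype.ext h)) (fun h => hvb (Subtype.ext h)) h1.2
      unfold ex at h2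
      omega
    · rw [hmemW]
      rintro ⟨i, hi, h⟩
      exact (hwab i hi).1 h
    · rw [hmemW]
      rintro ⟨i, hi, h⟩
      exact (hwab i hi).2 h
    · intro v hv
      rw [hmemW] at hv
      obtain ⟨i, hi, h⟩ := hv
      show S.G.Adj v.1 pa
      rw [← h]; exact (hwadj i hi).1
    · intro v hv
      rw [hmemW] at hv
      obtain ⟨i, hi, h⟩ := hv
      show S.G.Adj v.1 pb
      rw [← h]; exact (hwadj i hi).2
    · intro k l hkl
      have h1 := q2 _ _ (by have := k.2; omega) (by have := l.2; omega) (congrArg Subtype.val hkl)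
      exact Fin.ext (by omega)
    · intro k l hkl
      have h1 := q2 _ _ (by have := k.2; omega) (by have := l.2; omega) (congrArg Subtype.val hkl)
      exact Fin.ext (by omega)
    · intro k l hkl
      have h1 := q2 _ _ (by have := k.2; omega) (by have := l.2; omega) (congrArg Subtype.val hkl)
      omega
    · intro k
      rw [hmemW]
      exact ⟨2 * k.1, by have := k.2; omega, rfl⟩
    · intro k
      rw [hmemW]
      exact ⟨2 * k.1 + 1, by have := k.2; omega, rfl⟩
    · intro k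
      have h1 := (q4 (2 * k.1 + 1) (by omega) (by have := k.2; omega)).2.2
      show S.G.Adj (w (2 * k.1)) (w (2 * k.1 + 1))
      simpa using h1
    · have h1 : Fintype.card {v : V // v ∉ W} ≤ Fintype.card {x // x ∈ S1.V} := by
        refine Fintype.card_le_of_injective
          (fun v : {v : V // v ∉ W} => (⟨v.1.1, (hnotW v.1 v.2).1⟩ : {x // x ∈ S1.V})) ?_
        intro v v' h
        have h' : v.1.1 = v'.1.1 := congrArg (fun q : {x // x ∈ S1.V} => q.1) h
        exact Subtype.ext (Subtype.ext h')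
      rw [Fintype.card_coe] at h1
      exact h1
  have hconn : G.Connected := hsetup.connected
  refine ⟨V, inferInstance, G, ?_, ?_, hsetup.pathPairable, hconn, ?_⟩
  · rw [hcardV, hM, Nat.even_iff]; omega
  · refine ⟨Subtype.val, Subtype.val_injective, ?_, ?_⟩
    · intro u v w' huv
      exact hg.pl1 _ _ _ huv w'.2
    · intro u v u' v' huv huv' hne
      apply hg.pl2 _ _ _ _ huv huv'
      intro h
      apply hne
      have h' : Sym2.map Subtype.val s(u, v) = Sym2.map Subtype.val s(u', v') := by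
        simpa using h
      exact Sym2.map.injective Subtype.val_injective h'
  · -- the diameter
    have hlip : ∀ (u v : V) (p : G.Walk u v), |S.h u.1 - S.h v.1| ≤ p.length := by
      intro u v p
      induction p with
      | nil => simp
      | @cons u v' v hadj p ih =>
        have h1 : |S.h u.1 - S.h v'.1| ≤ 1 := hg.lip _ _ hadj
        rw [SimpleGraph.Walk.length_cons]
        have h2 := abs_sub_le (S.h u.1) (S.h v'.1) (S.h v.1)
        push_cast
        linarith
    have hxV : x ∈ S.V := he.V hx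
    obtain ⟨p, hp⟩ := hconn.exists_walk_length_eq_dist (⟨x, hxV⟩ : V) a
    have h1 := hlip _ _ p
    have h2 : S.h x = N := by rw [he.h x hx, hhx]
    have h3 : S.h pa = 0 := by rw [he.h pa haV1, ha0]
    rw [hp] at h1
    have h4 : |S.h x - S.h pa| = N := by rw [h2, h3]; simp
    have h5 : (N : ℤ) ≤ G.dist ⟨x, hxV⟩ a := by rw [← h4]; exact h1
    have h6 : N ≤ G.dist ⟨x, hxV⟩ a := by exact_mod_cast h5
    refine h6.trans (SimpleGraph.dist_le_diam ?_)
    have : Nonempty V := ⟨a⟩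
    exact SimpleGraph.connected_iff_ediam_ne_top.1 hconn

end Pool.Agent.N418.PPD
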